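import Pool.Agent.Y430.SS.Lf
import Pool.Agent.R630.FJ.Inn

/-!
# Abelian groups and central extensions
-/

set_option autoImplicit false

namespace Pool.Agent.W2helper25.AE

open Pool.Agent.Y110.FJ
open Pool.Agent.Y462.SS (Closed)

variable {C : ∀ (G : Type) [Group G], Prop}

/-- products of finitely many groups, indexed by `Fin n` -/
theorem C_pi_fin (hC : Closed C) : ∀ (n : ℕ) (B : Fin n → Type) [∀ i, Group (B i)],
    (∀ i, C (B i)) → C (∀ i, B i) := by
  intro n
  induction n with
  | zero =>
    intro B _ _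
    exact Pool.Agent.Y430.SS.of_finite hC _ inferInstance
  | succ n ih =>
    intro B _ hB
    let f : (∀ i, B i) →* B 0 × (∀ i : Fin n, B i.succ) :=
      { toFun := fun v => (v 0, fun i => v i.succ)
        map_one' := rfl
        map_mul' := fun _ _ => rfl }
    refine hC.of_injective _ _ f ?_ (hC.prod _ _ (hB 0) (ih _ fun i => hB _))
    intro u v huv
    funext i
    refine Fin.cases ?_ (fun j => ?_) i
    · exact congrArg Prod.fst huv
    · exact congrFun (congrArg Prod.snd huv) j

/-- products of finitely many groups -/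
theorem C_pi (hC : Closed C) {K : Type} [Finite K] (B : K → Type) [∀ i, Group (B i)]
    (hB : ∀ i, C (B i)) : C (∀ i, B i) := by
  obtain ⟨n, ⟨e⟩⟩ := Finite.exists_equiv_fin K
  let f : (∀ i, B i) →* (∀ i : Fin n, B (e.symm i)) :=
    { toFun := fun v i => v (e.symm i)
      map_one' := rfl
      map_mul' := fun _ _ => rfl }
  refine hC.of_injective _ _ f ?_ (C_pi_fin hC n _ fun i => hB _)
  intro u v huv
  funext i
  have h := congrFun huv (e i)
  have h2 : ∀ (a b : K) (_ : a = b), u a = v a → u b = v b := by
    rintro a _ rfl h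
    exact h
  exact h2 _ _ (e.symm_apply_apply i) h

/-- abelian groups -/
theorem C_ab (hC : Closed C) (A : Type) [Group A] (h : ∀ x y : A, x * y = y * x) : C A := by
  refine Pool.Agent.Y430.SS.of_directed hC A (Finset A) (fun i j => ?_)
    (fun s => Subgroup.closure (s : Set A)) (fun s t h => Subgroup.closure_mono (by exact_mod_cast h))
    (fun g => ⟨{g}, Subgroup.subset_closure (by simp)⟩) (fun s => ?_)
  · classical
    exact ⟨i ∪ j, Finset.subset_union_left, Finset.subset_union_right⟩
  · let _ : CommGroup (Subgroup.closure (s : Set A)) :=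
      { (inferInstance : Group (Subgroup.closure (s : Set A))) with
        mul_comm := fun x y => Subtype.ext (h _ _) }
    have hfg : Group.FG (Subgroup.closure (s : Set A)) :=
      (Group.fg_iff_subgroup_fg _).2 ⟨s, rfl⟩
    obtain ⟨ι, j, _, _, p, hp, e, ⟨f⟩⟩ :=
      CommGroup.equiv_free_prod_prod_multiplicative_zmod (Subgroup.closure (s : Set A))
    have hne : ∀ i, NeZero (p i ^ e i) := fun i => ⟨(pow_pos (hp i).pos _).ne'⟩
    refine hC.of_injective _ _ f.toMonoidHom f.injective (hC.prod _ _ ?_ ?_)
    · exact C_pi hC _ fun _ => hC.int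
    · exact C_pi hC _ fun i => Pool.Agent.Y430.SS.of_finite hC _
        (Finite.of_equiv _ (Multiplicative.toAdd (α := ZMod (p i ^ e i))).symm)

/-- central extensions -/
theorem C_central (hC : ClosedE C) {G Q : Type} [Group G] [Group Q] (f : G →* Q) (hQ : C Q)
    (hf : ∀ x, f x = 1 → ∀ y, x * y = y * x) : C G := by
  refine Pool.Agent.R630.FJ.t_inn C hC G f.ker
    (C_ab hC.base _ fun x y => Subtype.ext (hf x.1 x.2 y.1)) ?_ ?_
  · exact hC.base.of_injective _ _ (QuotientGroup.kerLift f) (QuotientGroup.kerLift_injective f) hQ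
  · intro g E _
    refine ⟨1, 1, 1, one_pos, by simp, fun x _ => ?_⟩
    have h1 := hf x.1 x.2 g
    show (x.1 : G) = g * x.1 * g⁻¹
    rw [← h1, mul_inv_cancel_right]

end Pool.Agent.W2helper25.AE
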