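import Pool.Agent.W2helper25.AE.Main
import Pool.Agent.W2helper12.BW.Cl

/-!
# Extensions by Artin groups: reduction to irreducible cliques
-/

set_option autoImplicit false

namespace Pool.Agent.W2helper25.AE

open Pool.Agent.Y110.FJ
open Pool.Agent.K7.H87.FJ6
open Pool.Agent.W2helper12.BW (IrrClique)

variable {C : ∀ (G : Type) [Group G], Prop}

/-- **extensions by Shephard groups of arbitrary rank** -/
theorem sh_kernel (hC : ClosedE C)
    (hW : ∀ (S : Type) [Finite S] (M : CoxeterMatrix S), C M.Group)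
    {G B : Type} [Group G] (N : Subgroup G) [N.Normal]
    {M : CoxeterMatrix B} {p : B → ℕ} (hadm : Adm M p)
    (hcl : ∀ T : Set B, IrrClique M T →
      C (Sh (pull M (Subtype.val : T → B) Subtype.val_injective) (p ∘ Subtype.val)))
    (e : Sh M p ≃* N)
    (hact : ∀ g : G, ∃ n ∈ N, ∃ (τ : Equiv.Perm B) (ε : ℤˣ),
      (∀ b b', M (τ b) (τ b') = M b b') ∧ (∀ b, p (τ b) = p b) ∧
      ∀ b, (n * g) * (e (Sh.gen M p b) : G) * (n * g)⁻¹ = (e (Sh.gen M p (τ b)) : G) ^ (ε : ℤ))
    (hQ : C (G ⧸ N)) : C G := by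
  refine sh_main hC N hadm e hact (fun T _ M' p' hadm' hemb => ?_) hQ
  refine Pool.Agent.W2helper12.BW.cliques hC hW M' p' hadm' fun K hK => ?_
  obtain ⟨κ, hκ, hκM, hκp⟩ := hemb K hK.clique
  have hR : IrrClique M (Set.range κ) := by
    have hKfin : Finite K := hK.finite
    refine ⟨Set.finite_range κ, ?_, ?_⟩
    · rintro _ ⟨i, rfl⟩ _ ⟨j, rfl⟩
      rw [hκM]
      exact hK.clique _ i.2 _ j.2
    · intro U V hUV hdis h2
      have hU : ∀ u ∈ U, ∃ i, κ i = u := fun u hu => by
        have : u ∈ U ∪ V := Or.inl hu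
        rw [hUV] at this
        exact this
      have hV : ∀ u ∈ V, ∃ i, κ i = u := fun u hu => by
        have : u ∈ U ∪ V := Or.inr hu
        rw [hUV] at this
        exact this
      rcases hK.irr (Subtype.val '' (κ ⁻¹' U)) (Subtype.val '' (κ ⁻¹' V)) (by
        rw [← Set.image_union, ← Set.preimage_union, hUV]
        ext x
        constructor
        · rintro ⟨y, -, rfl⟩
          exact y.2
        · intro hx
          exact ⟨⟨x, hx⟩, ⟨⟨x, hx⟩, rfl⟩, rfl⟩) (by
        rw [Set.disjoint_left]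
        rintro _ ⟨x, hx, rfl⟩ ⟨y, hy, hxy⟩
        rw [Subtype.val_injective hxy] at hy
        exact Set.disjoint_left.1 hdis hx hy) (by
        rintro _ ⟨x, hx, rfl⟩ _ ⟨y, hy, rfl⟩
        rw [← hκM]
        exact h2 _ hx _ hy) with h | h
      · left
        rw [Set.eq_empty_iff_forall_notMem]
        intro u hu
        obtain ⟨i, rfl⟩ := hU u hu
        have : i.1 ∈ Subtype.val '' (κ ⁻¹' U) := ⟨i, hu, rfl⟩
        rw [h] at this
        exact this
      · right
        rw [Set.eq_empty_iff_forall_notMem]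
        intro u hu
        obtain ⟨i, rfl⟩ := hV u hu
        have : i.1 ∈ Subtype.val '' (κ ⁻¹' V) := ⟨i, hu, rfl⟩
        rw [h] at this
        exact this
  have h1 := hcl _ hR
  obtain ⟨ρ, hρ⟩ : ∃ ρ : K → Set.range κ, ρ = fun i => ⟨κ i, i, rfl⟩ := ⟨_, rfl⟩
  have hρv : ∀ i, (ρ i).1 = κ i := fun i => by rw [hρ]
  have hinj : Function.Injective ρ := by
    intro x y hxy
    apply hκ
    rw [← hρv, ← hρv, hxy]
  have hM : ∀ x y, pull M (Subtype.val : Set.range κ → B) Subtype.val_injective (ρ x) (ρ y) =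
      pull M' (Subtype.val : K → T) Subtype.val_injective x y := by
    intro x y
    rw [pull_apply, pull_apply, hρv, hρv, hκM]
  have hp' : ∀ x, (p ∘ Subtype.val) (ρ x) = (p' ∘ Subtype.val) x := by
    intro x
    show p (ρ x).1 = p' x.1
    rw [hρv, hκp]
  exact hC.base.of_injective _ _ (lmap ρ hM hp') (lmap_inj (hadm.pull _ _) ρ hinj hM hp') h1

end Pool.Agent.W2helper25.AE
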