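import Mathlib

/-!
# Clique faithful extension of partial automorphisms
-/

set_option autoImplicit false

namespace Pool.Agent.W2helper25.AE

/-- two injective maps to a finite set differ by a permutation -/
theorem ex_perm {α S₀ : Type} [Finite α] (a b : S₀ → α) (ha : Function.Injective a)
    (hb : Function.Injective b) : ∃ π : Equiv.Perm α, ∀ s, π (a s) = b s := by
  classical
  let e : {x // x ∈ Set.range a} ≃ {x // x ∈ Set.range b} :=
    (Equiv.ofInjective a ha).symm.trans (Equiv.ofInjective b hb)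
  refine ⟨e.extendSubtype, fun s => ?_⟩
  rw [Equiv.extendSubtype_apply_of_mem e (a s) ⟨s, rfl⟩]
  show ((Equiv.ofInjective b hb) ((Equiv.ofInjective a ha).symm ⟨a s, ⟨s, rfl⟩⟩) : α) = b s
  have h : (Equiv.ofInjective a ha).symm ⟨a s, ⟨s, rfl⟩⟩ = s := by
    rw [Equiv.symm_apply_eq]
    rfl
  rw [h]
  rfl

/-- codes for the points of a set which is not contained in the given one -/
theorem ex_code {S T : Type} (ι₀ : S → T) (hι₀ : Function.Injective ι₀) (K : Finset T)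
    (hK : ∃ x ∈ K, x ∉ Set.range ι₀) :
    ∃ u : S → ℕ, (∀ s s', ι₀ s ∈ K → ι₀ s' ∈ K → u s = u s' → s = s') ∧
      ∀ s, ι₀ s ∈ K → u s + 1 < K.card := by
  classical
  obtain ⟨x, hx, hx'⟩ := hK
  have hmem : ∀ s, ι₀ s ∈ K → ι₀ s ∈ K.erase x := fun s hs =>
    Finset.mem_erase.2 ⟨fun e => hx' ⟨s, e⟩, hs⟩
  refine ⟨fun s => if h : ι₀ s ∈ K.erase x then ((K.erase x).equivFin ⟨ι₀ s, h⟩).val else 0,
    fun s s' hs hs' h => ?_, fun s hs => ?_⟩
  · beta_reduce at h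
    rw [dif_pos (hmem s hs), dif_pos (hmem s' hs')] at h
    have h1 := (K.erase x).equivFin.injective (Fin.ext h)
    exact hι₀ (congrArg Subtype.val h1)
  · show (if h : ι₀ s ∈ K.erase x then ((K.erase x).equivFin ⟨ι₀ s, h⟩).val else 0) + 1 < K.card
    rw [dif_pos (hmem s hs)]
    have h1 := ((K.erase x).equivFin ⟨ι₀ s, hmem s hs⟩).isLt
    have h2 := Finset.card_erase_of_mem hx
    have h3 : 0 < K.card := Finset.card_pos.2 ⟨x, hx⟩
    omega

section hkn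

variable {S T : Type} (ι₀ : S → T) (H : Subgroup (Equiv.Perm T))

/-- sets of points which do not go to the given set -/
def Bad (K : Finset T) : Prop := ¬ ∃ α ∈ H, ∀ x ∈ K, α x ∈ Set.range ι₀

variable {ι₀ H}

theorem Bad.ex {K : Finset T} (h : Bad ι₀ H K) : ∃ x ∈ K, x ∉ Set.range ι₀ := by
  by_contra hc
  push Not at hc
  exact h ⟨1, one_mem _, hc⟩

theorem Bad.map {K : Finset T} (h : Bad ι₀ H K) {τ : Equiv.Perm T} (hτ : τ ∈ H) :
    Bad ι₀ H (K.map τ.toEmbedding) := by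
  rintro ⟨α, hα, hK⟩
  refine h ⟨α * τ, mul_mem hα hτ, fun x hx => ?_⟩
  exact hK (τ x) (Finset.mem_map_of_mem _ hx)

theorem map_symm_map (K : Finset T) (τ : Equiv.Perm T) :
    (K.map τ.toEmbedding).map τ.symm.toEmbedding = K := by
  rw [Finset.map_map]
  ext x
  simp

theorem map_map_symm (K : Finset T) (τ : Equiv.Perm T) :
    (K.map τ.symm.toEmbedding).map τ.toEmbedding = K := by
  rw [Finset.map_map]
  ext x
  simp

theorem Bad.of_map {K : Finset T} {τ : Equiv.Perm T} (hτ : τ ∈ H)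
    (h : Bad ι₀ H (K.map τ.toEmbedding)) : Bad ι₀ H K := by
  have := h.map (inv_mem hτ)
  rw [show ((τ⁻¹ : Equiv.Perm T).toEmbedding) = τ.symm.toEmbedding from rfl, map_symm_map] at this
  exact this

variable (ι₀ H) in
/-- points with a valuation -/
def V : Type := {q : T × (Finset T → ℕ) // ∀ K, (Bad ι₀ H K ∧ q.1 ∈ K → q.2 K + 1 < K.card) ∧
  (¬ (Bad ι₀ H K ∧ q.1 ∈ K) → q.2 K = 0)}

theorem V.ext' {q q' : V ι₀ H} (h1 : q.1.1 = q'.1.1)
    (h2 : ∀ K, Bad ι₀ H K → q.1.1 ∈ K → q.1.2 K = q'.1.2 K) : q = q' := by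
  apply Subtype.ext
  refine Prod.ext h1 ?_
  funext K
  by_cases h : Bad ι₀ H K ∧ q.1.1 ∈ K
  · exact h2 K h.1 h.2
  · rw [(q.2 K).2 h, (q'.2 K).2 (fun e => h ⟨e.1, h1 ▸ e.2⟩)]

instance [Finite T] : Finite (V ι₀ H) := by
  classical
  have := Fintype.ofFinite T
  have hlt : ∀ (q : V ι₀ H) (K : Finset T), q.1.2 K < Fintype.card T + 1 := by
    intro q K
    by_cases h : Bad ι₀ H K ∧ q.1.1 ∈ K
    · have h1 := (q.2 K).1 h
      have h2 := Finset.card_le_univ K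
      omega
    · rw [(q.2 K).2 h]
      exact Nat.succ_pos _
  refine Finite.of_injective (fun q : V ι₀ H => ((q.1.1, fun K => ⟨q.1.2 K, hlt q K⟩) :
    T × (Finset T → Fin (Fintype.card T + 1)))) ?_
  intro q q' h
  have h1 := congrArg Prod.fst h
  have h2 := congrArg Prod.snd h
  refine V.ext' h1 fun K _ _ => ?_
  exact congrArg Fin.val (congrFun h2 K)

variable (ι₀ H) in
/-- generic pairs -/
def Gen (q q' : V ι₀ H) : Prop :=
  q.1.1 ≠ q'.1.1 ∧ ∀ K, Bad ι₀ H K → q.1.1 ∈ K → q'.1.1 ∈ K → q.1.2 K ≠ q'.1.2 K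

theorem Gen.symm {q q' : V ι₀ H} (h : Gen ι₀ H q q') : Gen ι₀ H q' q :=
  ⟨h.1.symm, fun K hK h1 h2 e => h.2 K hK h2 h1 e.symm⟩

open Classical in
/-- the labels -/
noncomputable def vmat (M₀ : CoxeterMatrix T) : CoxeterMatrix (V ι₀ H) where
  M := Matrix.of fun q q' => if q = q' then 1 else if Gen ι₀ H q q' then M₀ q.1.1 q'.1.1 else 0
  isSymm := by
    ext q q'
    simp only [Matrix.transpose_apply, Matrix.of_apply]
    by_cases h : q = q'
    · subst h
      rfl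
    · rw [if_neg h, if_neg (fun e => h e.symm)]
      by_cases h1 : Gen ι₀ H q q'
      · rw [if_pos h1, if_pos h1.symm, M₀.symmetric]
      · rw [if_neg h1, if_neg (fun e => h1 e.symm)]
  diagonal := by simp
  off_diagonal := by
    intro q q' h
    simp only [Matrix.of_apply, if_neg h]
    split_ifs with h1
    · exact M₀.off_diagonal _ _ h1.1
    · exact zero_ne_one

theorem vmat_gen (M₀ : CoxeterMatrix T) {q q' : V ι₀ H} (h : Gen ι₀ H q q') :
    vmat M₀ q q' = M₀ q.1.1 q'.1.1 := by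
  classical
  show (if q = q' then 1 else if Gen ι₀ H q q' then M₀ q.1.1 q'.1.1 else 0) = _
  rw [if_neg (fun e => h.1 (by rw [e])), if_pos h]

theorem vmat_not (M₀ : CoxeterMatrix T) {q q' : V ι₀ H} (hne : q ≠ q') (h : ¬ Gen ι₀ H q q') :
    vmat M₀ q q' = 0 := by
  classical
  show (if q = q' then 1 else if Gen ι₀ H q q' then M₀ q.1.1 q'.1.1 else 0) = _
  rw [if_neg hne, if_neg h]

open Classical in
/-- the extended permutation, as a map -/
noncomputable def tauF (r : Finset T → ℕ → ℕ) (τ₀ : Equiv.Perm T) (hτ₀ : τ₀ ∈ H)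
    (hr : ∀ K v, Bad ι₀ H K → v + 1 < K.card → r K v + 1 < K.card) (q : V ι₀ H) : V ι₀ H :=
  ⟨(τ₀ q.1.1, fun K => if Bad ι₀ H K ∧ τ₀ q.1.1 ∈ K then
    r (K.map τ₀.symm.toEmbedding) (q.1.2 (K.map τ₀.symm.toEmbedding)) else 0), fun K => by
    refine ⟨fun h => ?_, fun h => if_neg h⟩
    simp only
    rw [if_pos h]
    have hB : Bad ι₀ H (K.map τ₀.symm.toEmbedding) := h.1.map (inv_mem hτ₀)
    have hm : q.1.1 ∈ K.map τ₀.symm.toEmbedding := by
      rw [Finset.mem_map]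
      exact ⟨_, h.2, by simp⟩
    have h1 := hr _ _ hB ((q.2 _).1 ⟨hB, hm⟩)
    rw [Finset.card_map] at h1
    exact h1⟩

variable {r : Finset T → ℕ → ℕ} {τ₀ : Equiv.Perm T} {hτ₀ : τ₀ ∈ H}
  {hr : ∀ K v, Bad ι₀ H K → v + 1 < K.card → r K v + 1 < K.card}

theorem tauF_fst (q : V ι₀ H) : (tauF r τ₀ hτ₀ hr q).1.1 = τ₀ q.1.1 := rfl

theorem tauF_snd (q : V ι₀ H) {K : Finset T} (hK : Bad ι₀ H K) (hq : q.1.1 ∈ K) :
    (tauF r τ₀ hτ₀ hr q).1.2 (K.map τ₀.toEmbedding) = r K (q.1.2 K) := by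
  classical
  show (if Bad ι₀ H (K.map τ₀.toEmbedding) ∧ τ₀ q.1.1 ∈ K.map τ₀.toEmbedding then
    r ((K.map τ₀.toEmbedding).map τ₀.symm.toEmbedding)
      (q.1.2 ((K.map τ₀.toEmbedding).map τ₀.symm.toEmbedding)) else 0) = _
  rw [if_pos ⟨hK.map hτ₀, Finset.mem_map_of_mem _ hq⟩, map_symm_map]

theorem mem_symm {K : Finset T} {x : T} (h : τ₀ x ∈ K) : x ∈ K.map τ₀.symm.toEmbedding := by
  rw [Finset.mem_map]
  exact ⟨_, h, by simp⟩

theorem tauF_gen (hr2 : ∀ K v w, Bad ι₀ H K → v + 1 < K.card → w + 1 < K.card → r K v = r K w →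
    v = w) (q q' : V ι₀ H) :
    Gen ι₀ H (tauF r τ₀ hτ₀ hr q) (tauF r τ₀ hτ₀ hr q') ↔ Gen ι₀ H q q' := by
  constructor
  · rintro ⟨h1, h2⟩
    refine ⟨fun e => h1 (by rw [tauF_fst, tauF_fst, e]), fun K hK hq hq' e => ?_⟩
    refine h2 (K.map τ₀.toEmbedding) (hK.map hτ₀) (Finset.mem_map_of_mem _ hq)
      (Finset.mem_map_of_mem _ hq') ?_
    rw [tauF_snd q hK hq, tauF_snd q' hK hq', e]
  · rintro ⟨h1, h2⟩
    refine ⟨fun e => h1 (τ₀.injective e), fun K hK hq hq' e => ?_⟩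
    have hB : Bad ι₀ H (K.map τ₀.symm.toEmbedding) := hK.map (inv_mem hτ₀)
    have hq1 := mem_symm (τ₀ := τ₀) hq
    have hq1' := mem_symm (τ₀ := τ₀) hq'
    refine h2 _ hB hq1 hq1' ?_
    have e1 := tauF_snd (r := r) (hτ₀ := hτ₀) (hr := hr) q hB hq1
    have e2 := tauF_snd (r := r) (hτ₀ := hτ₀) (hr := hr) q' hB hq1'
    rw [map_map_symm] at e1 e2
    exact hr2 _ _ _ hB ((q.2 _).1 ⟨hB, hq1⟩) ((q'.2 _).1 ⟨hB, hq1'⟩) (by rw [← e1, ← e2, e])

theorem tauF_inj (hr2 : ∀ K v w, Bad ι₀ H K → v + 1 < K.card → w + 1 < K.card → r K v = r K w →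
    v = w) : Function.Injective (tauF r τ₀ hτ₀ hr) := by
  intro q q' h
  have h1 : q.1.1 = q'.1.1 := τ₀.injective (by rw [← tauF_fst (hτ₀ := hτ₀) (hr := hr) q, h]; rfl)
  refine V.ext' h1 fun K hK hq => ?_
  have hq' : q'.1.1 ∈ K := h1 ▸ hq
  refine hr2 K _ _ hK ((q.2 _).1 ⟨hK, hq⟩) ((q'.2 _).1 ⟨hK, hq'⟩) ?_
  rw [← tauF_snd (hτ₀ := hτ₀) (hr := hr) q hK hq, ← tauF_snd (hτ₀ := hτ₀) (hr := hr) q' hK hq', h]

open Classical in
/-- the embedding -/
noncomputable def iotaF (u : Finset T → S → ℕ)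
    (hu : ∀ K, Bad ι₀ H K → ∀ s, ι₀ s ∈ K → u K s + 1 < K.card) (s : S) : V ι₀ H :=
  ⟨(ι₀ s, fun K => if Bad ι₀ H K ∧ ι₀ s ∈ K then u K s else 0), fun K => by
    refine ⟨fun h => ?_, fun h => if_neg h⟩
    simp only
    rw [if_pos h]
    exact hu K h.1 s h.2⟩

theorem iotaF_snd {u : Finset T → S → ℕ}
    {hu : ∀ K, Bad ι₀ H K → ∀ s, ι₀ s ∈ K → u K s + 1 < K.card} {s : S} {K : Finset T}
    (h : Bad ι₀ H K) (h1 : ι₀ s ∈ K) : (iotaF u hu s).1.2 K = u K s := by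
  classical
  show (if Bad ι₀ H K ∧ ι₀ s ∈ K then u K s else 0) = _
  rw [if_pos ⟨h, h1⟩]

/-- **clique faithful extensions** -/
theorem hkn [Finite T] (hι₀ : Function.Injective ι₀) (M₀ : CoxeterMatrix T)
    (hH : ∀ α ∈ H, ∀ x y, M₀ (α x) (α y) = M₀ x y) (D : Set S) (f : D → S)
    (hf : Function.Injective f) (τ₀ : Equiv.Perm T) (hτ₀ : τ₀ ∈ H)
    (hτf : ∀ x : D, τ₀ (ι₀ x) = ι₀ (f x)) :
    ∃ (V : Type) (_ : Finite V) (M' : CoxeterMatrix V) (pr : V → T) (ι : S → V)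
      (τ : Equiv.Perm V), (∀ x, pr (ι x) = ι₀ x) ∧ (∀ v, pr (τ v) = τ₀ (pr v)) ∧
      (∀ x y, M' (ι x) (ι y) = M₀ (ι₀ x) (ι₀ y)) ∧ (∀ x y, M' (τ x) (τ y) = M' x y) ∧
      (∀ x : D, τ (ι x) = ι (f x)) ∧
      (∀ x y, x ≠ y → M' x y ≠ 0 → pr x ≠ pr y ∧ M' x y = M₀ (pr x) (pr y)) ∧
      ∀ K : Set V, (∀ x ∈ K, ∀ y ∈ K, M' x y ≠ 0) → ∃ α ∈ H, ∀ x ∈ K, α (pr x) ∈ Set.range ι₀ := by
  classical
  have hcode : ∀ K : Finset T, ∃ u : S → ℕ, Bad ι₀ H K →
      (∀ s s', ι₀ s ∈ K → ι₀ s' ∈ K → u s = u s' → s = s') ∧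
      ∀ s, ι₀ s ∈ K → u s + 1 < K.card := by
    intro K
    by_cases hK : Bad ι₀ H K
    · obtain ⟨u, hu⟩ := ex_code ι₀ hι₀ K hK.ex
      exact ⟨u, fun _ => hu⟩
    · exact ⟨fun _ => 0, fun h => absurd h hK⟩
  choose u hu using hcode
  have hperm : ∀ K : Finset T, ∃ r : ℕ → ℕ, Bad ι₀ H K →
      (∀ v, v + 1 < K.card → r v + 1 < K.card) ∧
      (∀ v w, v + 1 < K.card → w + 1 < K.card → r v = r w → v = w) ∧
      ∀ s : D, ι₀ s ∈ K → r (u K s) = u (K.map τ₀.toEmbedding) (f s) := by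
    intro K
    by_cases hK : Bad ι₀ H K
    · have hKm := hK.map hτ₀
      obtain ⟨ha1, ha2⟩ := hu K hK
      obtain ⟨hb1, hb2⟩ := hu _ hKm
      have hmem : ∀ s : D, ι₀ s ∈ K → ι₀ (f s) ∈ K.map τ₀.toEmbedding := by
        intro s hs
        rw [← hτf]
        exact Finset.mem_map_of_mem _ hs
      obtain ⟨π, hπ⟩ := ex_perm (α := Fin (K.card - 1)) (S₀ := {s : D // ι₀ s ∈ K})
        (fun s => ⟨u K s.1, by have := ha2 s.1 s.2; omega⟩)
        (fun s => ⟨u (K.map τ₀.toEmbedding) (f s.1), by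
          have := hb2 (f s.1) (hmem s.1 s.2)
          rw [Finset.card_map] at this
          omega⟩)
        (fun s s' h => by
          have h1 := congrArg Fin.val h
          exact Subtype.ext (Subtype.ext (ha1 _ _ s.2 s'.2 h1)))
        (fun s s' h => by
          have h1 := congrArg Fin.val h
          exact Subtype.ext (hf (hb1 _ _ (hmem _ s.2) (hmem _ s'.2) h1)))
      refine ⟨fun v => if h : v < K.card - 1 then (π ⟨v, h⟩).val else v, fun _ => ⟨?_, ?_, ?_⟩⟩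
      · intro v hv
        have hv' : v < K.card - 1 := by omega
        beta_reduce
        rw [dif_pos hv']
        have := (π ⟨v, hv'⟩).isLt
        omega
      · intro v w hv hw h
        have hv' : v < K.card - 1 := by omega
        have hw' : w < K.card - 1 := by omega
        beta_reduce at h
        rw [dif_pos hv', dif_pos hw'] at h
        exact congrArg Fin.val (π.injective (Fin.ext h))
      · intro s hs
        have hv' : u K s < K.card - 1 := by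
          have := ha2 s.1 hs
          omega
        beta_reduce
        rw [dif_pos hv']
        exact congrArg Fin.val (hπ ⟨s, hs⟩)
    · exact ⟨fun v => v, fun h => absurd h hK⟩
  choose r hr using hperm
  have hr1 : ∀ K v, Bad ι₀ H K → v + 1 < K.card → r K v + 1 < K.card :=
    fun K v hK => (hr K hK).1 v
  have hr2 : ∀ K v w, Bad ι₀ H K → v + 1 < K.card → w + 1 < K.card → r K v = r K w → v = w :=
    fun K v w hK => (hr K hK).2.1 v w
  have hu2 : ∀ K, Bad ι₀ H K → ∀ s, ι₀ s ∈ K → u K s + 1 < K.card := fun K hK => (hu K hK).2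
  let tf : V ι₀ H → V ι₀ H := tauF r τ₀ hτ₀ hr1
  have htf : Function.Bijective tf := Finite.injective_iff_bijective.1 (tauF_inj hr2)
  have hιgen : ∀ s s' : S, s ≠ s' → Gen ι₀ H (iotaF u hu2 s) (iotaF u hu2 s') := by
    intro s s' hne
    refine ⟨fun e => hne (hι₀ e), fun K hK hs hs' e => ?_⟩
    rw [iotaF_snd hK hs, iotaF_snd hK hs'] at e
    exact hne ((hu K hK).1 s s' hs hs' e)
  refine ⟨V ι₀ H, inferInstance, vmat M₀, fun v => v.1.1, iotaF u hu2, Equiv.ofBijective tf htf,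
    fun _ => rfl, fun _ => rfl, ?_, ?_, ?_, ?_, ?_⟩
  · intro x y
    by_cases h : x = y
    · subst h
      rw [(vmat M₀).diagonal, M₀.diagonal]
    · rw [vmat_gen M₀ (hιgen x y h)]
      rfl
  · intro x y
    show vmat M₀ (tf x) (tf y) = _
    by_cases h : x = y
    · subst h
      rw [(vmat M₀).diagonal, (vmat M₀).diagonal]
    · have h' : tf x ≠ tf y := fun e => h (htf.1 e)
      by_cases hg : Gen ι₀ H x y
      · rw [vmat_gen M₀ hg, vmat_gen M₀ ((tauF_gen hr2 x y).2 hg)]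
        exact hH τ₀ hτ₀ _ _
      · rw [vmat_not M₀ h hg, vmat_not M₀ h' (fun e => hg ((tauF_gen hr2 x y).1 e))]
  · intro x
    show tf (iotaF u hu2 x) = iotaF u hu2 (f x)
    refine V.ext' (hτf x) fun K hK hx => ?_
    have hx0 : τ₀ (ι₀ x) ∈ K := hx
    have hB : Bad ι₀ H (K.map τ₀.symm.toEmbedding) := hK.map (inv_mem hτ₀)
    have hm := mem_symm hx0
    have e1 := tauF_snd (r := r) (hτ₀ := hτ₀) (hr := hr1) (iotaF u hu2 x) hB hm
    rw [map_map_symm] at e1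
    rw [show (tf (iotaF u hu2 x)).1.2 K = (tauF r τ₀ hτ₀ hr1 (iotaF u hu2 x)).1.2 K from rfl, e1,
      iotaF_snd hB hm, (hr _ hB).2.2 x hm, map_map_symm, iotaF_snd hK (by rw [← hτf]; exact hx0)]
  · intro x y hne h
    by_cases hg : Gen ι₀ H x y
    · exact ⟨hg.1, vmat_gen M₀ hg⟩
    · exact absurd (vmat_not M₀ hne hg) h
  · intro K hK
    have hgen : ∀ x ∈ K, ∀ y ∈ K, x ≠ y → Gen ι₀ H x y := by
      intro x hx y hy hne
      by_contra hg
      exact hK x hx y hy (vmat_not M₀ hne hg)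
    have := Fintype.ofFinite (V ι₀ H)
    let K' : Finset (V ι₀ H) := K.toFinset
    have hK' : ∀ x, x ∈ K' ↔ x ∈ K := fun x => Set.mem_toFinset
    let K₀ : Finset T := K'.image fun v => v.1.1
    have hcard : K₀.card = K'.card := by
      apply Finset.card_image_of_injOn
      intro x hx y hy h
      by_contra hne
      exact (hgen x ((hK' x).1 hx) y ((hK' y).1 hy) hne).1 h
    by_contra hc
    have hbad : Bad ι₀ H K₀ := by
      rintro ⟨α, hα, h⟩
      exact hc ⟨α, hα, fun x hx => h _ (Finset.mem_image_of_mem _ ((hK' x).2 hx))⟩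
    have hmem : ∀ x ∈ K', x.1.1 ∈ K₀ := fun x hx => Finset.mem_image_of_mem _ hx
    have hle : K'.card ≤ (Finset.range (K₀.card - 1)).card := by
      apply Finset.card_le_card_of_injOn (fun x => x.1.2 K₀)
      · intro x hx
        have := (x.2 K₀).1 ⟨hbad, hmem x hx⟩
        simp only [Finset.coe_range, Set.mem_Iio]
        omega
      · intro x hx y hy h
        by_contra hne
        exact (hgen x ((hK' x).1 hx) y ((hK' y).1 hy) hne).2 K₀ hbad (hmem x hx) (hmem y hy) h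
    rw [Finset.card_range] at hle
    have h0 : K₀.card = 0 := by omega
    obtain ⟨x, hx, -⟩ := hbad.ex
    rw [Finset.card_eq_zero] at h0
    rw [h0] at hx
    exact absurd hx (by simp)

end hkn

end Pool.Agent.W2helper25.AE
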