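import Pool.Agent.N77.CX.Eppa
import Pool.Agent.W2helper25.AE.Hkn

/-!
# Clique faithful extension of partial automorphisms of coloured Coxeter matrices
-/

set_option autoImplicit false

namespace Pool.Agent.W2helper25.AE

open Pool.Agent.N77.CX (eppa)

open Classical in
/-- the labels which encode a coloured matrix -/
noncomputable def lab {S O : Type} (M : CoxeterMatrix S) (c : S → O) : S ⊕ O → S ⊕ O → ℕ
  | Sum.inl x, Sum.inl y => M x y
  | Sum.inl x, Sum.inr o => if c x = o then 3 else 2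
  | Sum.inr o, Sum.inl x => if c x = o then 3 else 2
  | Sum.inr o, Sum.inr o' => if o = o' then 1 else 2

/-- the matrix which encodes a coloured matrix -/
noncomputable def cmat {S O : Type} (M : CoxeterMatrix S) (c : S → O) : CoxeterMatrix (S ⊕ O) where
  M := Matrix.of (lab M c)
  isSymm := by
    ext x y
    simp only [Matrix.transpose_apply, Matrix.of_apply]
    rcases x with x | x <;> rcases y with y | y
    · exact M.symmetric _ _
    · rfl
    · rfl
    · simp only [lab]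
      by_cases h : x = y
      · subst h
        rfl
      · rw [if_neg h, if_neg (fun e => h e.symm)]
  diagonal x := by
    rcases x with x | x <;> simp [lab]
  off_diagonal x y h := by
    simp only [Matrix.of_apply]
    rcases x with x | x <;> rcases y with y | y <;> simp only [lab]
    · exact M.off_diagonal _ _ (fun e => h (congrArg _ e))
    · split_ifs <;> norm_num
    · split_ifs <;> norm_num
    · have h' : x ≠ y := fun e => h (congrArg _ e)
      rw [if_neg h']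
      norm_num

theorem cmat_ll {S O : Type} (M : CoxeterMatrix S) (c : S → O) (x y : S) :
    cmat M c (Sum.inl x) (Sum.inl y) = M x y := rfl

theorem cmat_rl {S O : Type} (M : CoxeterMatrix S) (c : S → O) (o : O) (x : S) :
    cmat M c (Sum.inr o) (Sum.inl x) = 3 ↔ c x = o := by
  show lab M c (Sum.inr o) (Sum.inl x) = 3 ↔ c x = o
  simp only [lab]
  by_cases h : c x = o <;> simp [h]

/-- **clique faithful extension of partial automorphisms** -/
theorem cfeppa (S O : Type) [Finite S] [Finite O] (M : CoxeterMatrix S) (c : S → O) (D : Set S)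
    (f : D → S) (hinj : Function.Injective f) (hadj : ∀ x y : D, M (f x) (f y) = M x y)
    (hc : ∀ x : D, c (f x) = c x) :
    ∃ (T : Type) (_ : Finite T) (M' : CoxeterMatrix T) (c' : T → O) (ι : S → T) (τ : Equiv.Perm T),
      Function.Injective ι ∧ (∀ x y, M' (ι x) (ι y) = M x y) ∧
      (∀ x y, M' (τ x) (τ y) = M' x y) ∧ (∀ x : D, τ (ι x) = ι (f x)) ∧
      (∀ x, c' (ι x) = c x) ∧ (∀ x, c' (τ x) = c' x) ∧
      ∀ K : Set T, (∀ x ∈ K, ∀ y ∈ K, M' x y ≠ 0) → ∃ κ : K → S, Function.Injective κ ∧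
        (∀ x y, M (κ x) (κ y) = M' x y) ∧ ∀ x, c (κ x) = c' x := by
  classical
  let D' : Set (S ⊕ O) := {z | ∀ x, z = Sum.inl x → x ∈ D}
  let f' : D' → S ⊕ O := fun z => match z with
    | ⟨Sum.inl x, hx⟩ => Sum.inl (f ⟨x, hx x rfl⟩)
    | ⟨Sum.inr o, _⟩ => Sum.inr o
  have hf'l : ∀ (x : S) (hx : Sum.inl x ∈ D'), f' ⟨Sum.inl x, hx⟩ = Sum.inl (f ⟨x, hx x rfl⟩) :=
    fun _ _ => rfl
  have hf'r : ∀ (o : O) (ho : Sum.inr o ∈ D'), f' ⟨Sum.inr o, ho⟩ = Sum.inr o := fun _ _ => rfl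
  have hinj' : Function.Injective f' := by
    rintro ⟨x | x, hx⟩ ⟨y | y, hy⟩ h
    · rw [hf'l x hx, hf'l y hy] at h
      have h1 := hinj (Sum.inl_injective h)
      have h2 : x = y := congrArg Subtype.val h1
      subst h2
      rfl
    · rw [hf'l x hx, hf'r y hy] at h
      exact absurd h (by simp)
    · rw [hf'r x hx, hf'l y hy] at h
      exact absurd h (by simp)
    · rw [hf'r x hx, hf'r y hy] at h
      have h2 : x = y := Sum.inr_injective h
      subst h2
      rfl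
  have hM : ∀ x y : D', cmat M c (f' x) (f' y) = cmat M c x y := by
    rintro ⟨x | x, hx⟩ ⟨y | y, hy⟩
    · rw [hf'l x hx, hf'l y hy]
      exact hadj ⟨x, hx x rfl⟩ ⟨y, hy y rfl⟩
    · rw [hf'l x hx, hf'r y hy]
      show lab M c (Sum.inl _) (Sum.inr _) = lab M c (Sum.inl x) (Sum.inr y)
      simp only [lab, hc ⟨x, hx x rfl⟩]
    · rw [hf'r x hx, hf'l y hy]
      show lab M c (Sum.inr _) (Sum.inl _) = lab M c (Sum.inr x) (Sum.inl y)
      simp only [lab, hc ⟨y, hy y rfl⟩]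
    · rw [hf'r x hx, hf'r y hy]
  obtain ⟨T, _, M₁, ι₁, τ₁, hι₁, hι₁M, hτ₁, hτ₁ι⟩ := eppa (S ⊕ O) (cmat M c) D' f' hinj' hM
  have hro : ∀ o : O, (Sum.inr o : S ⊕ O) ∈ D' := fun o x h => absurd h (by simp)
  have hlo : ∀ x : D, (Sum.inl x.1 : S ⊕ O) ∈ D' := fun x y h => by
    rw [← Sum.inl_injective h]
    exact x.2
  have hτ₁o : ∀ o : O, τ₁ (ι₁ (Sum.inr o)) = ι₁ (Sum.inr o) := fun o => hτ₁ι ⟨Sum.inr o, hro o⟩
  let H : Subgroup (Equiv.Perm T) :=
    { carrier := {α | (∀ x y, M₁ (α x) (α y) = M₁ x y) ∧ ∀ o, α (ι₁ (Sum.inr o)) = ι₁ (Sum.inr o)}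
      mul_mem' := by
        rintro α β ⟨h1, h2⟩ ⟨h3, h4⟩
        refine ⟨fun x y => ?_, fun o => ?_⟩
        · rw [Equiv.Perm.mul_apply, Equiv.Perm.mul_apply, h1, h3]
        · rw [Equiv.Perm.mul_apply, h4, h2]
      one_mem' := ⟨fun _ _ => rfl, fun _ => rfl⟩
      inv_mem' := by
        rintro α ⟨h1, h2⟩
        refine ⟨fun x y => ?_, fun o => ?_⟩
        · rw [← h1]
          simp
        · rw [Equiv.Perm.inv_eq_iff_eq, h2] }
  obtain ⟨V, _, M', pr, ι, τ, hprι, hprτ, hM', hτ, hτf, hpr, hcl⟩ :=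
    hkn (S := S) (ι₀ := fun x => ι₁ (Sum.inl x)) (H := H) (fun x y h => Sum.inl_injective (hι₁ h))
      M₁ (fun α hα => hα.1) D f hinj τ₁ ⟨hτ₁, hτ₁o⟩ (fun x => hτ₁ι ⟨Sum.inl x.1, hlo x⟩)
  -- the colours
  have hsing : ∀ v : V, ∃ s : S, ∃ α ∈ H, α (pr v) = ι₁ (Sum.inl s) := by
    intro v
    obtain ⟨α, hα, h⟩ := hcl {v} (fun x hx y hy => by
      rw [Set.mem_singleton_iff.1 hx, Set.mem_singleton_iff.1 hy, M'.diagonal]
      exact one_ne_zero)
    obtain ⟨s, hs⟩ := h v rfl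
    exact ⟨s, α, hα, hs.symm⟩
  choose sv hsv using hsing
  have hcol : ∀ (α : Equiv.Perm T) (_ : α ∈ H) (x : T) (s : S), α x = ι₁ (Sum.inl s) →
      ∀ o, M₁ (ι₁ (Sum.inr o)) x = 3 ↔ c s = o := by
    intro α hα x s hs o
    rw [← hα.1, hα.2, hs, hι₁M]
    exact cmat_rl M c o s
  have hcv : ∀ v o, M₁ (ι₁ (Sum.inr o)) (pr v) = 3 ↔ c (sv v) = o := by
    intro v o
    obtain ⟨α, hα, h⟩ := hsv v
    exact hcol α hα _ _ h o
  have hpri : ∀ x y, M' x y ≠ 0 → pr x = pr y → x = y := by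
    intro x y h1 h2
    by_contra hne
    exact (hpr x y hne h1).1 h2
  refine ⟨V, inferInstance, M', fun v => c (sv v), ι, τ, ?_, ?_, hτ, hτf, ?_, ?_, ?_⟩
  · intro x y h
    have h1 := congrArg pr h
    rw [hprι, hprι] at h1
    exact Sum.inl_injective (hι₁ h1)
  · intro x y
    rw [hM', hι₁M]
    rfl
  · intro x
    rw [← hcv, hprι]
    exact (hcol 1 (one_mem _) (ι₁ (Sum.inl x)) x rfl (c x)).2 rfl
  · intro v
    show c (sv (τ v)) = c (sv v)
    rw [← hcv, hprτ, ← hτ₁o, hτ₁, hcv]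
  · intro K hK
    obtain ⟨α, hα, h⟩ := hcl K hK
    choose κ hκ using fun x : K => h x.1 x.2
    refine ⟨κ, fun x y e => ?_, fun x y => ?_, fun x => ?_⟩
    · have h1 := hκ x
      have h2 := hκ y
      simp only at h1 h2
      rw [e, h2] at h1
      exact Subtype.ext (hpri _ _ (hK x.1 x.2 y.1 y.2) (α.injective h1).symm)
    · by_cases hxy : x = y
      · subst hxy
        rw [M.diagonal, M'.diagonal]
      · rw [(hpr x.1 y.1 (fun e => hxy (Subtype.ext e)) (hK x.1 x.2 y.1 y.2)).2, ← hα.1]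
        have h1 := hκ x
        have h2 := hκ y
        simp only at h1 h2
        rw [← h1, ← h2, hι₁M]
        rfl
    · show c (κ x) = c (sv x)
      rw [← hcol α hα (pr x) (κ x) (hκ x).symm, hcv]

end Pool.Agent.W2helper25.AE
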