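import Pool.Agent.W2helper25.AE.Rel3
import Pool.Agent.W2helper25.GP.Fin

/-!
# Groups given by relational structures
-/

set_option autoImplicit false

namespace Pool.Agent.W2helper25.AE

open Pool.Agent.Y110.FJ
open Pool.Agent.Y462.SS (Closed)
open Pool.Agent.N77.GP (MT il tt mt_pow mt_one tt_conj)
open Pool.Agent.W2helper25.GP (s_am agree mem_agree)

section fun_

variable {A ι X : Type} [Group A]

/-- the free factors of a free power of `A` -/
abbrev cof (x : X) : A →* Monoid.CoprodI (fun _ : X => A) :=
  Monoid.CoprodI.of (M := fun _ : X => A) (i := x)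

theorem lift_cof {L : Type} [Group L] (F : X → A →* L) (x : X) (a : A) :
    Monoid.CoprodI.lift (M := fun _ : X => A) F (cof x a) = F x a :=
  Monoid.CoprodI.lift_of (M := fun _ : X => A) F a

theorem cof_ext {L : Type} [Group L] {f g : Monoid.CoprodI (fun _ : X => A) →* L}
    (h : ∀ x a, f (cof x a) = g (cof x a)) : f = g := by
  apply Monoid.CoprodI.ext_hom
  intro x
  ext a
  exact h x a

/-- the evaluation of words in the letters `0, 1, 2, …` (the free factors) at a tuple -/
def ev {L : Type} [Group L] (F : X → A →* L) (l : List X) :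
    Monoid.CoprodI (fun _ : ℕ => A) →* L :=
  Monoid.CoprodI.lift fun n => (l[n]?).elim 1 F

/-- the relators -/
def rels (w : ι → Monoid.CoprodI (fun _ : ℕ => A)) (R : Str ι X) :
    Set (Monoid.CoprodI (fun _ : X => A)) :=
  {r | ∃ i l, (i, l) ∈ R ∧ r = ev cof l (w i)}

/-- the group given by a relational structure -/
abbrev NN (w : ι → Monoid.CoprodI (fun _ : ℕ => A)) (R : Str ι X) : Type :=
  Monoid.CoprodI (fun _ : X => A) ⧸ Subgroup.normalClosure (rels w R)

/-- the factors -/
def NN.of (w : ι → Monoid.CoprodI (fun _ : ℕ => A)) (R : Str ι X) (x : X) : A →* NN w R :=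
  (QuotientGroup.mk' _).comp (cof x)

/-- the letter `n` is deleted -/
def del (n : ℕ) : Monoid.CoprodI (fun _ : ℕ => A) →* Monoid.CoprodI (fun _ : ℕ => A) :=
  Monoid.CoprodI.lift fun m => if m = n then 1 else cof m

/-- all relators become trivial when one of the letters is deleted -/
def Brun (w : ι → Monoid.CoprodI (fun _ : ℕ => A)) (R : Str ι X) : Prop :=
  ∀ i l, (i, l) ∈ R → ∀ n < l.length, del n (w i) = 1

theorem map_ev {L L' : Type} [Group L] [Group L'] (F : X → A →* L) (l : List X) (g : L →* L')
    (z : Monoid.CoprodI (fun _ : ℕ => A)) : g (ev F l z) = ev (fun x => g.comp (F x)) l z := by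
  have h : g.comp (ev F l) = ev (fun x => g.comp (F x)) l := by
    apply cof_ext
    intro n a
    simp only [MonoidHom.comp_apply, ev, lift_cof]
    rcases l[n]? with _ | x
    · simp
    · rfl
  exact DFunLike.congr_fun h z

theorem ev_map {L X' : Type} [Group L] (f : X' → X) (F : X → A →* L) (l : List X')
    (z : Monoid.CoprodI (fun _ : ℕ => A)) : ev F (l.map f) z = ev (fun x => F (f x)) l z := by
  have h : ev F (l.map f) = ev (fun x => F (f x)) l := by
    unfold ev
    congr 1
    funext n
    rw [List.getElem?_map]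
    rcases l[n]? with _ | x
    · rfl
    · rfl
  rw [h]

theorem ev_congr {L : Type} [Group L] {F F' : X → A →* L} {l : List X}
    (h : ∀ x ∈ l, F x = F' x) (z : Monoid.CoprodI (fun _ : ℕ => A)) : ev F l z = ev F' l z := by
  have h : ev F l = ev F' l := by
    unfold ev
    congr 1
    funext n
    rcases hn : l[n]? with _ | x
    · rfl
    · exact h x (List.mem_of_getElem? hn)
  rw [h]

theorem ev_del {L : Type} [Group L] {F : X → A →* L} {l : List X} {x : X} (hx : x ∈ l)
    (hF : F x = 1) (z : Monoid.CoprodI (fun _ : ℕ => A)) (hz : ∀ n < l.length, del n z = 1) :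
    ev F l z = 1 := by
  obtain ⟨n, hn, hnx⟩ := List.mem_iff_getElem.1 hx
  have h : (ev F l).comp (del n) = ev F l := by
    apply cof_ext
    intro m a
    simp only [MonoidHom.comp_apply, del, lift_cof]
    by_cases hm : m = n
    · rw [if_pos hm, hm]
      simp only [ev, MonoidHom.one_apply, map_one, lift_cof]
      rw [List.getElem?_eq_getElem hn, hnx]
      show 1 = F x a
      rw [hF]
      rfl
    · rw [if_neg hm]
  rw [← h, MonoidHom.comp_apply, hz n hn, map_one]

variable {w : ι → Monoid.CoprodI (fun _ : ℕ => A)} {R : Str ι X}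

/-- the universal property -/
def nlift {L : Type} [Group L] (F : X → A →* L)
    (hF : ∀ i l, (i, l) ∈ R → ev F l (w i) = 1) : NN w R →* L :=
  QuotientGroup.lift _ (Monoid.CoprodI.lift F) (by
    intro z hz
    have h1 : Subgroup.normalClosure (rels w R) ≤ (Monoid.CoprodI.lift F).ker := by
      apply Subgroup.normalClosure_le_normal
      rintro r ⟨i, l, h, rfl⟩
      rw [SetLike.mem_coe, MonoidHom.mem_ker, map_ev]
      have h2 : ∀ x ∈ l, (Monoid.CoprodI.lift F).comp (cof x) = F x := by
        intro x _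
        ext a
        rw [MonoidHom.comp_apply, lift_cof]
      rw [ev_congr h2]
      exact hF i l h
    exact h1 hz)

@[simp] theorem nlift_of {L : Type} [Group L] (F : X → A →* L)
    (hF : ∀ i l, (i, l) ∈ R → ev F l (w i) = 1) (x : X) (a : A) :
    nlift F hF (NN.of w R x a) = F x a := by
  show (Monoid.CoprodI.lift F) (cof x a) = F x a
  rw [lift_cof]

theorem nn_ext {L : Type} [Group L] {f g : NN w R →* L}
    (h : ∀ x a, f (NN.of w R x a) = g (NN.of w R x a)) : f = g := by
  apply QuotientGroup.monoidHom_ext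
  apply cof_ext
  exact h

theorem nn_rel {i : ι} {l : List X} (h : (i, l) ∈ R) : ev (NN.of w R) l (w i) = 1 := by
  have h1 : (QuotientGroup.mk' (Subgroup.normalClosure (rels w R)))
      (ev cof l (w i)) = 1 := by
    rw [QuotientGroup.mk'_apply, QuotientGroup.eq_one_iff]
    exact Subgroup.subset_normalClosure ⟨i, l, h, rfl⟩
  rw [map_ev] at h1
  exact h1

theorem nn_gen (S : Subgroup (NN w R)) (h : ∀ x a, NN.of w R x a ∈ S) (z : NN w R) : z ∈ S := by
  have h1 : S.subtype.comp (nlift (w := w) (R := R)
      (fun x => (NN.of w R x).codRestrict S (h x)) (fun i l hl => by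
        apply Subtype.ext
        have h2 := map_ev (fun x => (NN.of w R x).codRestrict S (h x)) l S.subtype (w i)
        have h3 := nn_rel (w := w) hl
        exact h2.trans h3)) = MonoidHom.id _ := by
    apply nn_ext
    intro x a
    rw [MonoidHom.comp_apply, nlift_of]
    rfl
  have h2 := DFunLike.congr_fun h1 z
  rw [MonoidHom.comp_apply] at h2
  rw [MonoidHom.id_apply] at h2
  rw [← h2]
  exact Subtype.property _

section emb

variable {B : Type} {S : Str ι B} {f : B → X}

/-- the map given by an embedding -/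
def up (w : ι → Monoid.CoprodI (fun _ : ℕ => A)) (hf : Emb S R f) : NN w S →* NN w R :=
  nlift (fun b => NN.of w R (f b)) (fun i l hl => by
    rw [← ev_map f (NN.of w R)]
    exact nn_rel ((hf.iff i l).2 hl))

@[simp] theorem up_of (hf : Emb S R f) (b : B) (a : A) :
    up w hf (NN.of w S b a) = NN.of w R (f b) a := nlift_of _ _ _ _

theorem ex_down (hf : Emb S R f) (hB : Brun w R) :
    ∃ d : NN w R →* NN w S, ∀ b a, d (NN.of w R (f b) a) = NN.of w S b a := by
  classical
  let F : X → A →* NN w S := fun x => if h : ∃ b, f b = x then NN.of w S h.choose else 1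
  have hF1 : ∀ b, F (f b) = NN.of w S b := by
    intro b
    have h : ∃ b', f b' = f b := ⟨b, rfl⟩
    show (if h : ∃ b', f b' = f b then NN.of w S h.choose else 1) = _
    rw [dif_pos h]
    rw [hf.inj h.choose_spec]
  have hF0 : ∀ x, x ∉ Set.range f → F x = 1 := by
    intro x hx
    exact dif_neg hx
  refine ⟨nlift F (fun i l hl => ?_), fun b a => ?_⟩
  · by_cases h : ∀ x ∈ l, x ∈ Set.range f
    · obtain ⟨l', rfl⟩ := ex_map f l h
      rw [ev_map, ev_congr (F' := NN.of w S) (fun b _ => hF1 b)]
      exact nn_rel ((hf.iff i l').1 hl)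
    · push Not at h
      obtain ⟨x, hx, hx'⟩ := h
      exact ev_del hx (hF0 x hx') _ (hB i l hl)
  · rw [nlift_of, hF1]

theorem up_inj (hf : Emb S R f) (hB : Brun w R) : Function.Injective (up w hf) := by
  obtain ⟨d, hd⟩ := ex_down (w := w) hf hB
  have h : d.comp (up w hf) = MonoidHom.id _ := by
    apply nn_ext
    intro b a
    rw [MonoidHom.comp_apply, up_of, hd]
    rfl
  intro u v huv
  have h1 := congrArg d huv
  have h2 : ∀ u, d (up w hf u) = u := fun u => DFunLike.congr_fun h u
  rw [h2, h2] at h1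
  exact h1

end emb

section aut

variable {τ : Equiv.Perm X}

/-- the automorphism given by an automorphism of the structure -/
def naut (w : ι → Monoid.CoprodI (fun _ : ℕ => A)) (hτ : Emb R R τ) : MulAut (NN w R) :=
  MonoidHom.toMulEquiv (up w hτ) (up w hτ.symm)
    (nn_ext fun x a => by
      rw [MonoidHom.comp_apply, up_of, up_of, τ.symm_apply_apply]
      rfl)
    (nn_ext fun x a => by
      rw [MonoidHom.comp_apply, up_of, up_of, τ.apply_symm_apply]
      rfl)

@[simp] theorem naut_of (hτ : Emb R R τ) (x : X) (a : A) :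
    naut w hτ (NN.of w R x a) = NN.of w R (τ x) a := up_of hτ x a

theorem naut_pow_of (hτ : Emb R R τ) (k : ℕ) (x : X) (a : A) :
    (naut w hτ ^ k) (NN.of w R x a) = NN.of w R ((τ ^ k) x) a := by
  induction k with
  | zero => simp
  | succ k ih =>
    rw [pow_succ', MulAut.mul_apply, ih, naut_of, pow_succ']
    rfl

theorem naut_pow (hτ : Emb R R τ) (k : ℕ) (hk : τ ^ k = 1) : naut w hτ ^ k = 1 := by
  apply MulEquiv.toMonoidHom_injective
  apply nn_ext
  intro x a
  have h := naut_pow_of (w := w) hτ k x a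
  rw [hk] at h
  exact h

variable {C : ∀ (G : Type) [Group G], Prop}

theorem C_naut (hC : ClosedE C) [Finite X] (hW : C (NN w R)) (hτ : Emb R R τ) :
    C (MT (NN w R) (naut w hτ)) := by
  have hfin : IsOfFinOrder τ := isOfFinOrder_of_finite τ
  refine mt_pow hC.base (k := orderOf τ) hfin.orderOf_pos ?_
  rw [naut_pow hτ _ (pow_orderOf_eq_one τ)]
  exact mt_one hC.base hW

end aut

end fun_

section amal

variable {A ι X : Type} [Group A] {w : ι → Monoid.CoprodI (fun _ : ℕ => A)} {R : Str ι X}

/-- the subgroup generated by some factors -/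
def PS (w : ι → Monoid.CoprodI (fun _ : ℕ => A)) (R : Str ι X) (J : Set X) : Subgroup (NN w R) :=
  Subgroup.closure {z | ∃ x ∈ J, ∃ a, z = NN.of w R x a}

theorem of_mem_PS {J : Set X} {x : X} (hx : x ∈ J) (a : A) : NN.of w R x a ∈ PS w R J :=
  Subgroup.subset_closure ⟨x, hx, a, rfl⟩

theorem PS_le {J : Set X} {H : Subgroup (NN w R)} (h : ∀ x ∈ J, ∀ a, NN.of w R x a ∈ H) :
    PS w R J ≤ H := by
  unfold PS
  rw [Subgroup.closure_le]
  rintro _ ⟨x, hx, a, rfl⟩
  exact h x hx a

theorem PS_mono {J J' : Set X} (h : J ⊆ J') : PS w R J ≤ PS w R J' :=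
  Subgroup.closure_mono fun _ ⟨x, hx, a, e⟩ => ⟨x, h hx, a, e⟩

theorem PS_le_up (J : Set X) : PS w R J ≤ (up w (res_emb R J)).range := by
  unfold PS
  rw [Subgroup.closure_le]
  rintro _ ⟨x, hx, a, rfl⟩
  exact ⟨NN.of _ _ ⟨x, hx⟩ a, up_of _ _ _⟩

theorem amgN {a b : X} (hab : a ≠ b) (h : ∀ i l, (i, l) ∈ R → a ∈ l → b ∈ l → False) :
    Amg (PS w R {x | x ≠ a}) (PS w R {x | x ≠ b}) (PS w R {x | x ≠ a ∧ x ≠ b}) where
  le_left := PS_mono fun _ h => h.1
  le_right := PS_mono fun _ h => h.2
  gen := by
    rw [eq_top_iff]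
    intro z _
    refine nn_gen _ (fun x c => ?_) z
    by_cases hx : x = a
    · exact Subgroup.mem_sup_right (of_mem_PS (J := {x | x ≠ b}) (by rw [hx]; exact hab) c)
    · exact Subgroup.mem_sup_left (of_mem_PS (J := {x | x ≠ a}) hx c)
  univ := by
    classical
    intro L _ f g hfg
    obtain ⟨Ff, hFf⟩ : ∃ Ff : X → A →* L, ∀ x (hx : x ≠ a) c, Ff x c =
        f ⟨NN.of w R x c, of_mem_PS (J := {x | x ≠ a}) hx c⟩ := by
      refine ⟨fun x => if hx : x ≠ a then f.comp ((NN.of w R x).codRestrict _
        (fun c => of_mem_PS (J := {x | x ≠ a}) hx c)) else 1, fun x hx c => ?_⟩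
      simp only [dif_pos hx]
      rfl
    obtain ⟨Fg, hFg⟩ : ∃ Fg : X → A →* L, ∀ x (hx : x ≠ b) c, Fg x c =
        g ⟨NN.of w R x c, of_mem_PS (J := {x | x ≠ b}) hx c⟩ := by
      refine ⟨fun x => if hx : x ≠ b then g.comp ((NN.of w R x).codRestrict _
        (fun c => of_mem_PS (J := {x | x ≠ b}) hx c)) else 1, fun x hx c => ?_⟩
      simp only [dif_pos hx]
      rfl
    have hFfg : ∀ x, x ≠ a → x ≠ b → Ff x = Fg x := by
      intro x h1 h2
      ext c
      rw [hFf x h1, hFg x h2]
      exact hfg _ (of_mem_PS (J := {x | x ≠ a ∧ x ≠ b}) ⟨h1, h2⟩ c)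
    obtain ⟨F, hF⟩ : ∃ F : X → A →* L, F = fun x => if x = a then Fg x else Ff x := ⟨_, rfl⟩
    have hFa : ∀ x, x ≠ a → F x = Ff x := fun x hx => by
      rw [hF]
      exact if_neg hx
    have hFb : ∀ x, x ≠ b → F x = Fg x := by
      intro x hx
      by_cases hxa : x = a
      · rw [hF]
        exact if_pos hxa
      · rw [hFa x hxa, hFfg x hxa hx]
    have key : ∀ (J : Set X) (φ : PS w R J →* L) (Fφ : X → A →* L)
        (_ : ∀ x (hx : x ∈ J) c, Fφ x c = φ ⟨NN.of w R x c, of_mem_PS hx c⟩) (i : ι) (l : List X)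
        (_ : (i, l) ∈ R) (_ : ∀ x ∈ l, x ∈ J), ev Fφ l (w i) = 1 := by
      intro J φ Fφ hφ i l hl hJ
      let Q : X → A →* PS w R J := fun x => if hx : x ∈ J then
        (NN.of w R x).codRestrict _ (fun c => of_mem_PS hx c) else 1
      have hQ : ∀ x (hx : x ∈ J) c, Q x c = ⟨NN.of w R x c, of_mem_PS hx c⟩ := by
        intro x hx c
        simp only [Q, dif_pos hx]
        rfl
      have h1 : ev Q l (w i) = 1 := by
        apply Subtype.ext
        have h2 := map_ev Q l (PS w R J).subtype (w i)
        have h3 : ev (fun x => (PS w R J).subtype.comp (Q x)) l (w i) = ev (NN.of w R) l (w i) := by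
          apply ev_congr
          intro x hx
          ext c
          rw [MonoidHom.comp_apply, hQ x (hJ x hx)]
          rfl
        rw [h3, nn_rel hl] at h2
        exact h2
      have h2 := map_ev Q l φ (w i)
      rw [h1, map_one] at h2
      rw [h2]
      apply ev_congr
      intro x hx
      ext c
      rw [MonoidHom.comp_apply, hQ x (hJ x hx), hφ x (hJ x hx)]
    have hrel : ∀ i l, (i, l) ∈ R → ev F l (w i) = 1 := by
      intro i l hl
      by_cases ha : a ∈ l
      · have hb : ∀ x ∈ l, x ≠ b := fun x hx e => h i l hl ha (e ▸ hx)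
        rw [ev_congr (F' := Fg) (fun x hx => hFb x (hb x hx))]
        exact key {x | x ≠ b} g Fg hFg i l hl hb
      · have ha' : ∀ x ∈ l, x ≠ a := fun x hx e => ha (e ▸ hx)
        rw [ev_congr (F' := Ff) (fun x hx => hFa x (ha' x hx))]
        exact key {x | x ≠ a} f Ff hFf i l hl ha'
    refine ⟨nlift F hrel, ?_, ?_⟩
    · have hle : PS w R {x | x ≠ a} ≤ agree (nlift F hrel) f := by
        refine PS_le fun x hx c => ?_
        rw [mem_agree (of_mem_PS (J := {x | x ≠ a}) hx c), nlift_of, hFa x hx,
          hFf x hx]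
      intro z
      exact (mem_agree z.2).1 (hle z.2)
    · have hle : PS w R {x | x ≠ b} ≤ agree (nlift F hrel) g := by
        refine PS_le fun x hx c => ?_
        rw [mem_agree (of_mem_PS (J := {x | x ≠ b}) hx c), nlift_of, hFb x hx,
          hFg x hx]
      intro z
      exact (mem_agree z.2).1 (hle z.2)

theorem Brun.of_emb {B : Type} {S : Str ι B} {f : B → X} (hf : Emb S R f) (hB : Brun w R) :
    Brun w S := by
  intro i l hl n hn
  exact hB i (l.map f) ((hf.iff i l).2 hl) n (by rw [List.length_map]; exact hn)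

variable {C : ∀ (G : Type) [Group G], Prop}

/-- the groups of the irreducible finite substructures are in the class -/
def HypC (C : ∀ (G : Type) [Group G], Prop) (w : ι → Monoid.CoprodI (fun _ : ℕ => A))
    (R : Str ι X) : Prop :=
  ∀ (K : Type) (_ : Finite K) (S : Str ι K) (k : K → X), Emb S R k → IrrOn S Set.univ → C (NN w S)

theorem HypC.of_emb {B : Type} {S : Str ι B} {f : B → X} (hf : Emb S R f) (h : HypC C w R) :
    HypC C w S := fun K _ S' k hk hirr => h K inferInstance S' (f ∘ k) (hf.comp hk) hirr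

/-- **finite structures** -/
theorem fin_C (hC : ClosedE C) : ∀ (n : ℕ) (T : Type) [Finite T] (_ : Nat.card T = n)
    (R : Str ι T) (_ : Brun w R) (_ : HypC C w R), C (NN w R) := by
  intro n
  induction n with
  | zero =>
    intro T _ hn R _ hH
    have hT : IsEmpty T := by
      rcases Nat.card_eq_zero.1 hn with h | h
      · exact h
      · exact absurd h (by rw [not_infinite_iff_finite]; infer_instance)
    exact hH T inferInstance R id ⟨Function.injective_id, fun i l => by rw [List.map_id]⟩
      (fun x => hT.elim x)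
  | succ n ih =>
    intro T _ hn R hB hH
    by_cases hirr : IrrOn R Set.univ
    · exact hH T inferInstance R id ⟨Function.injective_id, fun i l => by rw [List.map_id]⟩ hirr
    · unfold IrrOn at hirr
      push Not at hirr
      obtain ⟨a, -, b, -, hab, h⟩ := hirr
      have hcard : ∀ c : T, Nat.card {x : T | x ≠ c} = n := by
        intro c
        classical
        have := Fintype.ofFinite T
        rw [Nat.card_eq_fintype_card] at hn ⊢
        have h1 := Fintype.card_subtype_compl (fun x : T => x = c)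
        rw [Fintype.card_subtype_eq] at h1
        have h2 : Fintype.card {x : T | x ≠ c} = Fintype.card {x // ¬ (x = c)} := rfl
        rw [h2, h1, hn]
        omega
      have hCc : ∀ c : T, C (NN w (res R {x : T | x ≠ c})) := fun c =>
        ih _ (hcard c) _ (hB.of_emb (res_emb R _)) (hH.of_emb (res_emb R _))
      obtain ⟨da, hda⟩ := ex_down (w := w) (res_emb R {x : T | x ≠ a}) hB
      obtain ⟨db, hdb⟩ := ex_down (w := w) (res_emb R {x : T | x ≠ b}) hB
      have hinj : ∀ (c : T) (d : NN w R →* NN w (res R {x : T | x ≠ c}))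
          (_ : ∀ (x : {x : T | x ≠ c}) e, d (NN.of w R x.1 e) = NN.of w _ x e),
          ∀ z ∈ PS w R {x | x ≠ c}, d z = 1 → z = 1 := by
        intro c d hd z hz h1
        obtain ⟨u, rfl⟩ := PS_le_up _ hz
        have h2 : d.comp (up w (res_emb R {x : T | x ≠ c})) = MonoidHom.id _ := by
          apply nn_ext
          intro x e
          rw [MonoidHom.comp_apply, up_of, hd]
          rfl
        have h3 : d (up w (res_emb R {x : T | x ≠ c}) u) = u := DFunLike.congr_fun h2 u
        rw [h3] at h1
        rw [h1, map_one]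
      refine s_am C hC _ _ _ _ _ (amgN hab (fun i l hl ha hb => h i l hl ha hb)) (da.prod db)
        (fun z hz h1 => hinj a da hda z hz (congrArg Prod.fst h1))
        (fun z hz h1 => hinj b db hdb z hz (congrArg Prod.snd h1))
        (hC.base.prod _ _ (hCc a) (hCc b))

end amal

end Pool.Agent.W2helper25.AE
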