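import Pool.Agent.N77.CX.Main
import Pool.Agent.W2helper25.AE.Col
import Pool.Agent.W2helper25.AR.Fill

/-!
# Extensions by Artin groups and Shephard groups of arbitrary rank
-/

set_option autoImplicit false

namespace Pool.Agent.W2helper25.AE

open Pool.Agent.Y110.FJ
open Pool.Agent.Y462.SS (Closed)
open Pool.Agent.Helper741 (alt alt_mul_two alt_mul_two_add_one)
open Pool.Agent.K7.H87.FJ6
open Pool.Agent.N77.GP (MT il tt mt_pow mt_one tt_conj)
open Pool.Agent.N77.CX (realized_of)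
open Pool.Agent.W2helper25.AR (PP gen_mem PP_mono inc_inj)

variable {C : ∀ (G : Type) [Group G], Prop}

theorem alt_inv {G : Type*} [Group G] {a b : G} {n : ℕ} (h : alt a b n = alt b a n) :
    alt a⁻¹ b⁻¹ n = alt b⁻¹ a⁻¹ n := by
  rcases Nat.even_or_odd' n with ⟨k, hk | hk⟩
  · have h1 : (alt a b n)⁻¹ = alt b⁻¹ a⁻¹ n := by
      rw [hk, alt_mul_two, alt_mul_two, ← inv_pow, mul_inv_rev]
    have h2 : (alt b a n)⁻¹ = alt a⁻¹ b⁻¹ n := by
      rw [hk, alt_mul_two, alt_mul_two, ← inv_pow, mul_inv_rev]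
    rw [← h1, ← h2, h]
  · have h3 : ∀ x y : G, (alt x y n)⁻¹ = alt x⁻¹ y⁻¹ n := by
      intro x y
      rw [hk, alt_mul_two_add_one, alt_mul_two_add_one, mul_inv_rev, ← inv_pow, mul_inv_rev]
      exact (mul_pow_mul _ _ _).symm
    rw [← h3, ← h3, h]

section aut

variable {T : Type} {M' : CoxeterMatrix T} {p' : T → ℕ}

/-- the endomorphism given by a permutation of the generators and a sign -/
def smap (τ : Equiv.Perm T) (ε : ℤˣ) (hM : ∀ x y, M' (τ x) (τ y) = M' x y)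
    (hp : ∀ x, p' (τ x) = p' x) : Sh M' p' →* Sh M' p' :=
  Sh.lift (fun i => Sh.gen M' p' (τ i) ^ (ε : ℤ)) (fun i j => by
    have h := Sh.rel (M := M') (p := p') (τ i) (τ j)
    rw [hM] at h
    rcases Int.units_eq_one_or ε with e | e
    · rw [e, Units.val_one, zpow_one, zpow_one]
      exact h
    · rw [e, Units.val_neg, Units.val_one, zpow_neg_one, zpow_neg_one]
      exact alt_inv h) (fun i => by
    have h := Sh.pow (M := M') (p := p') (τ i)
    rw [hp] at h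
    rw [← zpow_natCast, ← zpow_mul, mul_comm, zpow_mul, zpow_natCast, h, one_zpow])

theorem smap_gen (τ : Equiv.Perm T) (ε : ℤˣ) (hM : ∀ x y, M' (τ x) (τ y) = M' x y)
    (hp : ∀ x, p' (τ x) = p' x) (i : T) :
    smap τ ε hM hp (Sh.gen M' p' i) = Sh.gen M' p' (τ i) ^ (ε : ℤ) := Sh.lift_gen _ _ _ _

/-- the automorphism given by a permutation of the generators and a sign -/
def saut (τ : Equiv.Perm T) (ε : ℤˣ) (hM : ∀ x y, M' (τ x) (τ y) = M' x y)
    (hp : ∀ x, p' (τ x) = p' x) : MulAut (Sh M' p') :=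
  MonoidHom.toMulEquiv (smap τ ε hM hp)
    (smap τ.symm ε (fun x y => by rw [← hM, τ.apply_symm_apply, τ.apply_symm_apply])
      (fun x => by rw [← hp, τ.apply_symm_apply]))
    (Sh.hom_ext fun i => by
      rw [MonoidHom.comp_apply, smap_gen, map_zpow, smap_gen, τ.symm_apply_apply, ← zpow_mul,
        ← Units.val_mul, Int.units_mul_self, Units.val_one, zpow_one]
      rfl)
    (Sh.hom_ext fun i => by
      rw [MonoidHom.comp_apply, smap_gen, map_zpow, smap_gen, τ.apply_symm_apply, ← zpow_mul,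
        ← Units.val_mul, Int.units_mul_self, Units.val_one, zpow_one]
      rfl)

theorem saut_gen (τ : Equiv.Perm T) (ε : ℤˣ) (hM : ∀ x y, M' (τ x) (τ y) = M' x y)
    (hp : ∀ x, p' (τ x) = p' x) (i : T) :
    saut τ ε hM hp (Sh.gen M' p' i) = Sh.gen M' p' (τ i) ^ (ε : ℤ) := smap_gen τ ε hM hp i

theorem saut_pow_gen (τ : Equiv.Perm T) (ε : ℤˣ) (hM : ∀ x y, M' (τ x) (τ y) = M' x y)
    (hp : ∀ x, p' (τ x) = p' x) (k : ℕ) (i : T) :
    (saut τ ε hM hp ^ k) (Sh.gen M' p' i) = Sh.gen M' p' ((τ ^ k) i) ^ ((ε ^ k : ℤˣ) : ℤ) := by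
  induction k with
  | zero => simp
  | succ k ih =>
    rw [pow_succ', MulAut.mul_apply, ih, map_zpow, saut_gen, ← zpow_mul, ← Units.val_mul,
      pow_succ' ε, pow_succ' τ]
    rfl

theorem saut_pow (τ : Equiv.Perm T) (ε : ℤˣ) (hM : ∀ x y, M' (τ x) (τ y) = M' x y)
    (hp : ∀ x, p' (τ x) = p' x) (k : ℕ) (hk : τ ^ k = 1) (hε : ε ^ k = 1) :
    saut τ ε hM hp ^ k = 1 := by
  apply MulEquiv.toMonoidHom_injective
  apply Sh.hom_ext
  intro i
  have h := saut_pow_gen τ ε hM hp k i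
  rw [hk, hε, Units.val_one, zpow_one] at h
  exact h

theorem C_saut (hC : ClosedE C) [Finite T] (hW : C (Sh M' p')) (τ : Equiv.Perm T) (ε : ℤˣ)
    (hM : ∀ x y, M' (τ x) (τ y) = M' x y) (hp : ∀ x, p' (τ x) = p' x) :
    C (MT (Sh M' p') (saut τ ε hM hp)) := by
  have hfin : IsOfFinOrder τ := isOfFinOrder_of_finite τ
  have h2 : ε ^ 2 = 1 := Int.units_sq ε
  refine mt_pow hC.base (k := orderOf τ * 2) (Nat.mul_pos hfin.orderOf_pos two_pos) ?_
  rw [saut_pow τ ε hM hp _ (by rw [pow_mul, pow_orderOf_eq_one, one_pow])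
    (by rw [mul_comm, pow_mul, h2, one_pow])]
  exact mt_one hC.base hW

end aut

section lmap

variable {A B : Type} {MA : CoxeterMatrix A} {pA : A → ℕ} {M : CoxeterMatrix B} {p : B → ℕ}

/-- the homomorphism given by a map which preserves labels and exponents -/
def lmap (ι : A → B) (hM : ∀ x y, M (ι x) (ι y) = MA x y) (hp : ∀ x, p (ι x) = pA x) :
    Sh MA pA →* Sh M p :=
  Sh.lift (fun i => Sh.gen M p (ι i)) (fun i j => by
    rw [← hM]
    exact Sh.rel _ _) (fun i => by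
    rw [← hp]
    exact Sh.pow _)

theorem lmap_gen (ι : A → B) (hM : ∀ x y, M (ι x) (ι y) = MA x y) (hp : ∀ x, p (ι x) = pA x)
    (i : A) : lmap ι hM hp (Sh.gen MA pA i) = Sh.gen M p (ι i) := Sh.lift_gen _ _ _ _

theorem lmap_inj (hadm : Adm M p) (ι : A → B) (hι : Function.Injective ι)
    (hM : ∀ x y, M (ι x) (ι y) = MA x y) (hp : ∀ x, p (ι x) = pA x) :
    Function.Injective (lmap (MA := MA) (pA := pA) ι hM hp) := by
  have e1 : MA = pull M ι hι := by
    apply CoxeterMatrix.ext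
    ext i j
    exact (hM i j).symm
  have e2 : pA = p ∘ ι := funext fun i => (hp i).symm
  subst e1
  subst e2
  have : lmap (MA := pull M ι hι) (pA := p ∘ ι) ι hM hp = inc M p ι hι := by
    apply Sh.hom_ext
    intro i
    rw [lmap_gen, inc_gen]
  rw [this]
  exact inc_inj hadm ι hι

end lmap

theorem ex_supp {B : Type} {M : CoxeterMatrix B} {p : B → ℕ} (y : Sh M p) :
    ∃ J : Set B, J.Finite ∧ y ∈ PP M p J := by
  induction y using Sh.induction with
  | one => exact ⟨∅, Set.finite_empty, one_mem _⟩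
  | gen i => exact ⟨{i}, Set.finite_singleton i, gen_mem rfl⟩
  | mul x y hx hy =>
    obtain ⟨F, h1, hF⟩ := hx
    obtain ⟨F', h2, hF'⟩ := hy
    exact ⟨F ∪ F', h1.union h2, mul_mem (PP_mono Set.subset_union_left hF)
      (PP_mono Set.subset_union_right hF')⟩
  | inv x hx =>
    obtain ⟨F, h1, hF⟩ := hx
    exact ⟨F, h1, inv_mem hF⟩

/-- **extensions by Shephard groups** -/
theorem sh_main (hC : ClosedE C) {G B : Type} [Group G] (N : Subgroup G) [N.Normal]
    {M : CoxeterMatrix B} {p : B → ℕ} (hadm : Adm M p) (e : Sh M p ≃* N)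
    (hact : ∀ g : G, ∃ n ∈ N, ∃ (τ : Equiv.Perm B) (ε : ℤˣ),
      (∀ b b', M (τ b) (τ b') = M b b') ∧ (∀ b, p (τ b) = p b) ∧
      ∀ b, (n * g) * (e (Sh.gen M p b) : G) * (n * g)⁻¹ = (e (Sh.gen M p (τ b)) : G) ^ (ε : ℤ))
    (hfin : ∀ (T : Type) (_ : Finite T) (M' : CoxeterMatrix T) (p' : T → ℕ), Adm M' p' →
      (∀ K : Set T, (∀ x ∈ K, ∀ y ∈ K, M' x y ≠ 0) → ∃ κ : K → B, Function.Injective κ ∧
        (∀ x y, M (κ x) (κ y) = M' x y) ∧ ∀ x, p (κ x) = p' x) → C (Sh M' p'))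
    (hQ : C (G ⧸ N)) : C G := by
  refine Pool.Agent.R779.FJ.t_crit Pool.Agent.Y529.FJ.t_ext
    (Pool.Agent.Y961.FJ.t_perm Pool.Agent.Y529.FJ.t_ext) C hC G N hQ fun g E hE hEN => ?_
  obtain ⟨n, hn, τ₀, ε, hτM, hτp, hconj⟩ := hact g
  obtain ⟨m, hm⟩ : ∃ m : G, m = n * g := ⟨_, rfl⟩
  rw [← hm] at hconj
  have hgm : g = n⁻¹ * m := by rw [hm, inv_mul_cancel_left]
  -- the support
  obtain ⟨J, hJ, hJE⟩ : ∃ J : Set B, J.Finite ∧ ∀ x ∈ insert n E, ∃ y ∈ PP M p J, (e y : G) = x := by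
    have hfinE : (insert n E).Finite := hE.insert n
    have hsub : insert n E ⊆ (N : Set G) := Set.insert_subset hn hEN
    generalize insert n E = E' at hfinE hsub
    induction E', hfinE using Set.Finite.induction_on with
    | empty => exact ⟨∅, Set.finite_empty, fun x hx => absurd hx (Set.notMem_empty x)⟩
    | @insert a s _ _ ih =>
      obtain ⟨S, hS, h1⟩ := ih (fun x hx => hsub (Set.mem_insert_of_mem _ hx))
      obtain ⟨S', hS', h2⟩ := ex_supp (e.symm ⟨a, hsub (Set.mem_insert _ _)⟩)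
      refine ⟨S ∪ S', hS.union hS', fun x hx => ?_⟩
      rcases hx with rfl | hx
      · exact ⟨_, PP_mono Set.subset_union_right h2, by rw [e.apply_symm_apply]⟩
      · obtain ⟨y, hy, hyx⟩ := h1 x hx
        exact ⟨y, PP_mono Set.subset_union_left hy, hyx⟩
  obtain ⟨J', hJ'⟩ : ∃ J' : Set B, J' = J ∪ τ₀ '' J := ⟨_, rfl⟩
  have hfinJ : Finite J' := by
    rw [hJ']
    exact hJ.union (hJ.image _)
  have hJJ' : ∀ b ∈ J, b ∈ J' := fun b hb => by rw [hJ']; exact Or.inl hb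
  have hmJ : ∀ b ∈ J, τ₀ b ∈ J' := fun b hb => by
    rw [hJ']
    exact Or.inr ⟨b, hb, rfl⟩
  obtain ⟨v, hvd⟩ : ∃ v : J' → B, v = Subtype.val := ⟨_, rfl⟩
  have hv : Function.Injective v := by rw [hvd]; exact Subtype.val_injective
  have hval : ∀ x : J', v x = x.1 := fun x => by rw [hvd]
  let O : Type := Set.range (fun x : J' => p (v x))
  have hOfin : Finite O := Set.finite_range _
  obtain ⟨T, _, M', c', ι, τ, hι, hιM, hτ, hτι, hc'ι, hc'τ, hcl⟩ := cfeppa J' O (pull M v hv)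
    (fun x => ⟨p (v x), x, rfl⟩) {x | τ₀ x.1 ∈ J'} (fun x => ⟨τ₀ x.1.1, x.2⟩)
    (fun x y hxy => Subtype.ext (Subtype.ext (τ₀.injective (congrArg Subtype.val hxy))))
    (fun x y => by
      rw [pull_apply, pull_apply, hval, hval, hval, hval]
      exact hτM x.1.1 y.1.1)
    (fun x => by
      apply Subtype.ext
      show p (v ⟨τ₀ x.1.1, x.2⟩) = p (v x.1)
      rw [hval, hval]
      exact hτp x.1.1)
  obtain ⟨p', hp'⟩ : ∃ p' : T → ℕ, p' = fun x => (c' x).1 := ⟨_, rfl⟩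
  have hp'ι : ∀ x, p' (ι x) = (p ∘ v) x := fun x => by
    rw [hp']
    show (c' (ι x)).1 = _
    rw [hc'ι]
    rfl
  have hp'τ : ∀ x, p' (τ x) = p' x := fun x => by
    rw [hp']
    show (c' (τ x)).1 = (c' x).1
    rw [hc'τ]
  have hcl' : ∀ K : Set T, (∀ x ∈ K, ∀ y ∈ K, M' x y ≠ 0) → ∃ κ : K → B, Function.Injective κ ∧
        (∀ x y, M (κ x) (κ y) = M' x y) ∧ ∀ x, p (κ x) = p' x := by
    intro K hK
    obtain ⟨κ, h1, h2, h3⟩ := hcl K hK
    refine ⟨v ∘ κ, hv.comp h1, h2, fun x => ?_⟩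
    rw [hp']
    show p (v (κ x)) = (c' x).1
    rw [← h3]
  have hadm' : Adm M' p' := by
    refine ⟨fun i => ?_, fun i j hij => ?_⟩
    · obtain ⟨κ, -, -, h3⟩ := hcl' {i} (fun x hx y hy => by
        rw [Set.mem_singleton_iff.1 hx, Set.mem_singleton_iff.1 hy, M'.diagonal]
        exact one_ne_zero)
      rw [← h3 ⟨i, rfl⟩]
      exact hadm.even _
    · have hne : M' i j ≠ 0 := fun h => by
        rw [h] at hij
        exact absurd hij (by decide)
      have hne' : M' j i ≠ 0 := fun h => hne (by rw [M'.symmetric]; exact h)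
      obtain ⟨κ, -, h2, h3⟩ := hcl' {i, j} (by
        rintro x (rfl | rfl) y (rfl | rfl)
        · rw [M'.diagonal]
          exact one_ne_zero
        · exact hne
        · exact hne'
        · rw [M'.diagonal]
          exact one_ne_zero)
      rw [← h3 ⟨i, Or.inl rfl⟩, ← h3 ⟨j, Or.inr rfl⟩]
      apply hadm.odd
      rw [h2]
      exact hij
  have hCT : C (Sh M' p') := hfin T inferInstance M' p' hadm' hcl'
  -- the embeddings
  have hαinj := inc_inj hadm v hv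
  have hβinj := lmap_inj hadm' ι hι hιM hp'ι
  obtain ⟨a, ha⟩ : ∃ a : Sh (pull M v hv) (p ∘ v) →* G,
    a = N.subtype.comp (e.toMonoidHom.comp (inc M p v hv)) := ⟨_, rfl⟩
  have hainj : Function.Injective a := by
    rw [ha]
    exact Subtype.val_injective.comp (e.injective.comp hαinj)
  have has : ∀ b : J', a (Sh.gen _ _ b) = (e (Sh.gen M p (v b)) : G) := by
    intro b
    rw [ha, MonoidHom.comp_apply, MonoidHom.comp_apply, inc_gen]
    rfl
  obtain ⟨β, hβ⟩ : ∃ β : Sh (pull M v hv) (p ∘ v) →* Sh M' p', β = lmap ι hιM hp'ι := ⟨_, rfl⟩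
  rw [← hβ] at hβinj
  have hβs : ∀ b : J', β (Sh.gen _ _ b) = Sh.gen M' p' (ι b) := by
    intro b
    rw [hβ, lmap_gen]
  -- conjugation by `m`
  have key : ∀ y ∈ PP M p J, ∃ w w' : Sh (pull M v hv) (p ∘ v), a w = (e y : G) ∧
      a w' = m * (e y : G) * m⁻¹ ∧ β w' = saut τ ε hτ hp'τ (β w) := by
    intro x hx
    unfold PP at hx
    induction hx using Subgroup.closure_induction with
    | mem x hx =>
      obtain ⟨b, hb, rfl⟩ := hx
      refine ⟨Sh.gen _ _ ⟨b, hJJ' b hb⟩, Sh.gen _ _ ⟨τ₀ b, hmJ b hb⟩ ^ (ε : ℤ), ?_, ?_, ?_⟩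
      · rw [has, hval]
      · rw [map_zpow, has, hval]
        exact (hconj b).symm
      · rw [map_zpow, hβs, hβs, saut_gen]
        congr 2
        exact (hτι ⟨⟨b, hJJ' b hb⟩, hmJ b hb⟩).symm
    | one => exact ⟨1, 1, by simp, by simp, by simp⟩
    | mul x y _ _ hx hy =>
      obtain ⟨w, w', h1, h2, h3⟩ := hx
      obtain ⟨v, v', h4, h5, h6⟩ := hy
      refine ⟨w * v, w' * v', by rw [map_mul, h1, h4, map_mul]; rfl, ?_,
        by rw [map_mul, map_mul, map_mul, h3, h6]⟩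
      rw [map_mul, h2, h5, map_mul, Subgroup.coe_mul]
      group
    | inv x _ hx =>
      obtain ⟨w, w', h1, h2, h3⟩ := hx
      refine ⟨w⁻¹, w'⁻¹, by rw [map_inv, h1, map_inv]; rfl, ?_,
        by rw [map_inv, map_inv, map_inv, h3]⟩
      rw [map_inv, h2, map_inv, Subgroup.coe_inv]
      group
  have hES : E ⊆ (a.range : Set G) := by
    intro x hx
    obtain ⟨y, hy, rfl⟩ := hJE x (Set.mem_insert_of_mem n hx)
    obtain ⟨w, -, h1, -⟩ := key y hy
    exact ⟨w, h1⟩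
  have hnS : n⁻¹ ∈ a.range := by
    obtain ⟨y, hy, hyn⟩ := hJE n (Set.mem_insert n E)
    obtain ⟨w, -, h1, -⟩ := key y hy
    rw [← hyn]
    exact inv_mem ⟨w, h1⟩
  have hmE : ∀ x ∈ E, m * x * m⁻¹ ∈ a.range := by
    intro x hx
    obtain ⟨y, hy, rfl⟩ := hJE x (Set.mem_insert_of_mem n hx)
    obtain ⟨w, w', h1, h2, -⟩ := key y hy
    exact ⟨w', h2⟩
  have hsymm : ∀ (w : Sh (pull M v hv) (p ∘ v)) (x : G) (hx : x ∈ a.range), a w = x →
      (MonoidHom.ofInjective hainj).symm ⟨x, hx⟩ = w := by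
    intro w x hx hw
    rw [MulEquiv.symm_apply_eq]
    apply Subtype.ext
    exact hw.symm
  refine realized_of a.range hgm hES hnS hmE (C_saut hC hCT τ ε hτ hp'τ)
    ((il (saut τ ε hτ hp'τ)).comp (β.comp (MonoidHom.ofInjective hainj).symm.toMonoidHom)) ?_
    (tt (saut τ ε hτ hp'τ)) ?_
  · exact SemidirectProduct.inl_injective.comp
      (hβinj.comp (MonoidHom.ofInjective hainj).symm.injective)
  · intro x hx
    obtain ⟨y, hy, hyx⟩ := hJE x (Set.mem_insert_of_mem n hx)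
    obtain ⟨w, w', h1, h2, h3⟩ := key y hy
    rw [hyx] at h1 h2
    show il _ (β ((MonoidHom.ofInjective hainj).symm _)) =
      tt _ * il _ (β ((MonoidHom.ofInjective hainj).symm _)) * (tt _)⁻¹
    rw [hsymm w x _ h1, hsymm w' _ _ h2, tt_conj, h3]

end Pool.Agent.W2helper25.AE
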