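import Pool.Agent.W2helper25.AE.RMain
import Pool.Agent.W2helper25.AE.Ab

/-!
# Nilpotent graph products
-/

set_option autoImplicit false

namespace Pool.Agent.W2helper25.AE

open Pool.Agent.Y110.FJ
open Pool.Agent.Y462.SS (Closed)
open scoped commutatorElement

section lnc

/-- left-normed commutators of lists -/
def lnc {L : Type} [Group L] : List L → L
  | [] => 1
  | a :: l => l.foldl (fun x y => ⁅x, y⁆) a

theorem lnc_append {L : Type} [Group L] {l : List L} (hl : l ≠ []) (y : L) :
    lnc (l ++ [y]) = ⁅lnc l, y⁆ := by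
  rcases l with _ | ⟨a, l⟩
  · exact absurd rfl hl
  · show (l ++ [y]).foldl (fun x y => ⁅x, y⁆) a = _
    rw [List.foldl_append]
    rfl

theorem map_lnc {L L' : Type} [Group L] [Group L'] (f : L →* L') (l : List L) :
    f (lnc l) = lnc (l.map f) := by
  rcases l with _ | ⟨a, l⟩
  · exact map_one f
  · show f (l.foldl (fun x y => ⁅x, y⁆) a) = (l.map f).foldl (fun x y => ⁅x, y⁆) (f a)
    induction l generalizing a with
    | nil => rfl
    | cons b l ih =>
      rw [List.foldl_cons, ih, List.map_cons, List.foldl_cons, map_commutatorElement]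

theorem foldl_one {L : Type} [Group L] (l : List L) :
    l.foldl (fun x y => ⁅x, y⁆) (1 : L) = 1 := by
  induction l with
  | nil => rfl
  | cons b l ih => rw [List.foldl_cons, commutatorElement_one_left, ih]

theorem lnc_one {L : Type} [Group L] {l : List L} (h : (1 : L) ∈ l) : lnc l = 1 := by
  rcases l with _ | ⟨a, l⟩
  · rfl
  · show l.foldl (fun x y => ⁅x, y⁆) a = 1
    rcases List.mem_cons.1 h with h | h
    · rw [← h, foldl_one]
    · induction l generalizing a with
      | nil => exact absurd h List.not_mem_nil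
      | cons b l ih =>
        rw [List.foldl_cons]
        rcases List.mem_cons.1 h with h' | h'
        · rw [← h', commutatorElement_one_right, foldl_one]
        · exact ih _ (List.mem_cons_of_mem _ h') h'

end lnc

variable {A X : Type} [Group A]

/-- the words -/
def wN : A ⊕ (ℕ × (ℕ → A)) → Monoid.CoprodI (fun _ : ℕ => A)
  | Sum.inl a => cof 0 a
  | Sum.inr (m, a) => lnc ((List.range (m + 1)).map fun j => cof j (a j))

/-- the relational structure -/
def RN (Λ : SimpleGraph X) (M : X → Subgroup A) (m : ℕ) : Str (A ⊕ (ℕ × (ℕ → A))) X :=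
  {q | (∃ x, ∃ a ∈ M x, q = (Sum.inl a, [x])) ∨ ∃ a : ℕ → A, q.1 = Sum.inr (m, a) ∧
    q.2.length = m + 1 ∧ (∀ x ∈ q.2, ∀ y ∈ q.2, x = y ∨ Λ.Adj x y) ∧ q.2[0]? ≠ q.2[1]?}

theorem mem_RN_inl {Λ : SimpleGraph X} {M : X → Subgroup A} {m : ℕ} {a : A} {l : List X} :
    ((Sum.inl a, l) : (A ⊕ (ℕ × (ℕ → A))) × List X) ∈ RN Λ M m ↔ ∃ x, a ∈ M x ∧ l = [x] := by
  constructor
  · rintro (⟨x, b, hb, h⟩ | ⟨b, h, -⟩)
    · obtain ⟨h1, rfl⟩ := Prod.mk.inj h
      obtain rfl := Sum.inl.inj h1
      exact ⟨x, hb, rfl⟩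
    · exact absurd h Sum.inl_ne_inr
  · rintro ⟨x, hx, rfl⟩
    exact Or.inl ⟨x, a, hx, rfl⟩

theorem mem_RN_inr {Λ : SimpleGraph X} {M : X → Subgroup A} {m n : ℕ} {a : ℕ → A} {l : List X} :
    ((Sum.inr (n, a), l) : (A ⊕ (ℕ × (ℕ → A))) × List X) ∈ RN Λ M m ↔
      n = m ∧ l.length = m + 1 ∧ (∀ x ∈ l, ∀ y ∈ l, x = y ∨ Λ.Adj x y) ∧ l[0]? ≠ l[1]? := by
  constructor
  · rintro (⟨x, b, hb, h⟩ | ⟨b, h, h2⟩)
    · exact absurd (Prod.mk.inj h).1 Sum.inr_ne_inl
    · obtain ⟨rfl, rfl⟩ := Prod.mk.inj (Sum.inr.inj h)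
      exact ⟨rfl, h2⟩
  · rintro ⟨rfl, h⟩
    exact Or.inr ⟨a, rfl, h⟩

theorem ev_inl {L : Type} [Group L] (F : X → A →* L) (x : X) (a : A) :
    ev F [x] (wN (Sum.inl a)) = F x a := by
  show ev F [x] (cof 0 a) = _
  unfold ev
  rw [lift_cof]
  exact rfl

theorem ev_inr {L : Type} [Group L] (F : X → A →* L) (l : List X) (m : ℕ) (a : ℕ → A) :
    ev F l (wN (Sum.inr (m, a))) =
      lnc ((List.range (m + 1)).map fun j => ((l[j]?).elim 1 F : A →* L) (a j)) := by
  show ev F l (lnc ((List.range (m + 1)).map fun j => cof j (a j))) = _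
  rw [map_lnc, List.map_map]
  have h : ∀ j, ev F l (cof j (a j)) = ((l[j]?).elim 1 F : A →* L) (a j) := by
    intro j
    unfold ev
    rw [lift_cof]
  exact congrArg lnc (List.map_congr_left fun j _ => h j)

theorem ev_step {L : Type} [Group L] (F : X → A →* L) {l : List X} {m : ℕ} (hl : l.length = m + 1)
    (y : X) (a : ℕ → A) : ev F (l ++ [y]) (wN (Sum.inr (m + 1, a))) =
      ⁅ev F l (wN (Sum.inr (m, a))), F y (a (m + 1))⁆ := by
  rw [ev_inr, ev_inr, List.range_succ, List.map_append, List.map_singleton, lnc_append (by simp)]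
  have h1 : ((l ++ [y])[m + 1]?).elim 1 F = F y := by
    rw [List.getElem?_append_right (by omega), hl, Nat.sub_self]
    rfl
  rw [h1]
  congr 2
  apply List.map_congr_left
  intro j hj
  rw [List.mem_range] at hj
  rw [List.getElem?_append_left (by omega)]

theorem brun_RN (Λ : SimpleGraph X) (M : X → Subgroup A) (m : ℕ) : Brun wN (RN Λ M m) := by
  rintro (a | ⟨k, a⟩) l hl n hn
  · obtain ⟨x, -, rfl⟩ := mem_RN_inl.1 hl
    have : n = 0 := by simpa using hn
    subst this
    show del 0 (cof 0 a) = 1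
    unfold del
    rw [lift_cof, if_pos rfl]
    rfl
  · obtain ⟨rfl, h1, -⟩ := mem_RN_inr.1 hl
    show del n (lnc ((List.range (k + 1)).map fun j => cof j (a j))) = 1
    rw [map_lnc, List.map_map]
    apply lnc_one
    rw [List.mem_map]
    refine ⟨n, List.mem_range.2 (by omega), ?_⟩
    show del n (cof n (a n)) = 1
    unfold del
    rw [lift_cof, if_pos rfl]
    rfl

theorem rn_hom {Λ : SimpleGraph X} {M : X → Subgroup A} {m : ℕ} {L : Type} [Group L]
    (F : X → A →* L) (h1 : ∀ x, ∀ a ∈ M x, F x a = 1)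
    (h2 : ∀ (a : ℕ → A) (l : List X), l.length = m + 1 → (∀ x ∈ l, ∀ y ∈ l, x = y ∨ Λ.Adj x y) →
      l[0]? ≠ l[1]? → ev F l (wN (Sum.inr (m, a))) = 1) :
    ∀ i l, (i, l) ∈ RN Λ M m → ev F l (wN i) = 1 := by
  rintro (a | ⟨k, a⟩) l hl
  · obtain ⟨x, hx, rfl⟩ := mem_RN_inl.1 hl
    rw [ev_inl]
    exact h1 x a hx
  · obtain ⟨rfl, h3, h4, h5⟩ := mem_RN_inr.1 hl
    exact h2 a l h3 h4 h5

theorem nn_inl {Λ : SimpleGraph X} {M : X → Subgroup A} {m : ℕ} (x : X) (a : A) (ha : a ∈ M x) :
    NN.of wN (RN Λ M m) x a = 1 := by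
  have h := nn_rel (w := wN) (R := RN Λ M m) (mem_RN_inl.2 ⟨x, ha, rfl⟩)
  rw [ev_inl] at h
  exact h

variable {C : ∀ (G : Type) [Group G], Prop}

/-- the first step -/
theorem clique_one (hC : Closed C) {K : Type} [Finite K] (M : K → Subgroup A) [∀ x, (M x).Normal]
    (hM : ∀ x, C (A ⧸ M x)) : C (NN wN (RN (⊤ : SimpleGraph K) M 1)) := by
  classical
  have := Fintype.ofFinite K
  have hcom : ∀ x y (_ : x ≠ y) a b, Commute (NN.of wN (RN (⊤ : SimpleGraph K) M 1) x a)
      (NN.of wN (RN (⊤ : SimpleGraph K) M 1) y b) := by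
    intro x y hxy a b
    have h := nn_rel (w := wN) (R := RN (⊤ : SimpleGraph K) M 1) (i := Sum.inr (1, fun j =>
      if j = 0 then a else b)) (l := [x, y]) (mem_RN_inr.2 ⟨rfl, rfl, by
        intro u _ v _
        rw [SimpleGraph.top_adj]
        exact em _, by simpa using hxy⟩)
    rw [ev_inr] at h
    exact commutatorElement_eq_one_iff_commute.1 h
  let f : NN wN (RN (⊤ : SimpleGraph K) M 1) →* ∀ x, A ⧸ M x :=
    nlift (fun x => (MonoidHom.mulSingle (fun x => A ⧸ M x) x).comp (QuotientGroup.mk' (M x)))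
      (rn_hom _ (fun x a ha => by
        rw [MonoidHom.comp_apply, QuotientGroup.mk'_apply, (QuotientGroup.eq_one_iff a).2 ha,
          map_one]) (fun a l hl _ hne => by
        obtain ⟨x, y, rfl⟩ := List.length_eq_two.1 hl
        have hxy : x ≠ y := by simpa using hne
        rw [ev_inr]
        exact commutatorElement_eq_one_iff_commute.2
          (Pi.mulSingle_commute (f := fun x => A ⧸ M x) hxy _ _)))
  let g : (∀ x, A ⧸ M x) →* NN wN (RN (⊤ : SimpleGraph K) M 1) :=
    MonoidHom.noncommPiCoprod (fun x => QuotientGroup.lift (M x)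
      (NN.of wN (RN (⊤ : SimpleGraph K) M 1) x)
      (fun a ha => MonoidHom.mem_ker.2 (nn_inl x a ha))) (by
        intro x y hxy u v
        obtain ⟨a, rfl⟩ := QuotientGroup.mk_surjective u
        obtain ⟨b, rfl⟩ := QuotientGroup.mk_surjective v
        exact hcom x y hxy a b)
  have hgf : g.comp f = MonoidHom.id _ := by
    apply nn_ext
    intro x a
    rw [MonoidHom.comp_apply, nlift_of, MonoidHom.comp_apply, MonoidHom.mulSingle_apply]
    exact (MonoidHom.noncommPiCoprod_mulSingle (N := fun x => A ⧸ M x) _ x _).trans rfl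
  refine hC.of_injective _ _ f ?_ (C_pi hC _ hM)
  intro u v huv
  have h1 := DFunLike.congr_fun hgf u
  have h2 := DFunLike.congr_fun hgf v
  rw [MonoidHom.comp_apply, MonoidHom.id_apply] at h1 h2
  rw [← h1, ← h2, huv]

/-- **finite cliques** -/
theorem clique_C (hC : ClosedE C) {K : Type} [Finite K] (M : K → Subgroup A) [∀ x, (M x).Normal]
    (hM : ∀ x, C (A ⧸ M x)) (m : ℕ) : C (NN wN (RN (⊤ : SimpleGraph K) M (m + 1))) := by
  induction m with
  | zero => exact clique_one hC.base M hM
  | succ m ih =>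
    have hadj : ∀ l : List K, ∀ x ∈ l, ∀ y ∈ l, x = y ∨ (⊤ : SimpleGraph K).Adj x y := by
      intro l x _ y _
      rw [SimpleGraph.top_adj]
      exact em _
    let f : NN wN (RN (⊤ : SimpleGraph K) M (m + 1 + 1)) →* NN wN (RN (⊤ : SimpleGraph K) M (m + 1)) :=
      nlift (NN.of wN _) (rn_hom _ (fun x a ha => nn_inl x a ha) (fun a l hl _ hne => by
        obtain ⟨l', y, rfl⟩ : ∃ l' y, l = l' ++ [y] := by
          have hl0 : l ≠ [] := by
            rintro rfl
            simp at hl
          exact ⟨l.dropLast, l.getLast hl0, (List.dropLast_append_getLast hl0).symm⟩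
        have hl' : l'.length = m + 1 + 1 := by simpa using hl
        rw [ev_step _ hl']
        rw [List.getElem?_append_left (by omega), List.getElem?_append_left (by omega)] at hne
        rw [nn_rel (w := wN) (mem_RN_inr.2 ⟨rfl, hl', hadj l', hne⟩), commutatorElement_one_left]))
    refine C_central hC f ih ?_
    -- the commutators are central
    have hcen : ∀ (a : ℕ → A) (l : List K), l.length = m + 1 + 1 → l[0]? ≠ l[1]? →
        ev (NN.of wN (RN (⊤ : SimpleGraph K) M (m + 1 + 1))) l (wN (Sum.inr (m + 1, a))) ∈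
          Subgroup.center (NN wN (RN (⊤ : SimpleGraph K) M (m + 1 + 1))) := by
      intro a l hl hne
      rw [Subgroup.mem_center_iff]
      intro z
      have h1 : z ∈ Subgroup.centralizer
          {ev (NN.of wN (RN (⊤ : SimpleGraph K) M (m + 1 + 1))) l (wN (Sum.inr (m + 1, a)))} := by
        refine nn_gen _ (fun y b => ?_) z
        rw [Subgroup.mem_centralizer_iff]
        rintro _ rfl
        have h2 := nn_rel (w := wN) (R := RN (⊤ : SimpleGraph K) M (m + 1 + 1))
          (i := Sum.inr (m + 1 + 1, Function.update a (m + 1 + 1) b)) (l := l ++ [y])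
          (mem_RN_inr.2 ⟨rfl, by simp [hl], hadj _, by
            rw [List.getElem?_append_left (by omega), List.getElem?_append_left (by omega)]
            exact hne⟩)
        rw [ev_step _ hl, Function.update_self] at h2
        have h3 : ev (NN.of wN (RN (⊤ : SimpleGraph K) M (m + 1 + 1))) l
            (wN (Sum.inr (m + 1, Function.update a (m + 1 + 1) b))) =
            ev (NN.of wN (RN (⊤ : SimpleGraph K) M (m + 1 + 1))) l (wN (Sum.inr (m + 1, a))) := by
          rw [ev_inr, ev_inr]
          congr 1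
          apply List.map_congr_left
          intro j hj
          rw [List.mem_range] at hj
          rw [Function.update_of_ne (by omega)]
        rw [h3] at h2
        exact commutatorElement_eq_one_iff_mul_comm.1 h2
      exact (Subgroup.mem_centralizer_iff.1 h1 _ rfl).symm
    let g : NN wN (RN (⊤ : SimpleGraph K) M (m + 1)) →*
        NN wN (RN (⊤ : SimpleGraph K) M (m + 1 + 1)) ⧸
          Subgroup.center (NN wN (RN (⊤ : SimpleGraph K) M (m + 1 + 1))) :=
      nlift (fun x => (QuotientGroup.mk' _).comp (NN.of wN _ x)) (rn_hom _ (fun x a ha => by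
        rw [MonoidHom.comp_apply, nn_inl x a ha, map_one]) (fun a l hl _ hne => by
        rw [← map_ev]
        rw [QuotientGroup.mk'_apply, QuotientGroup.eq_one_iff]
        exact hcen a l hl hne))
    have hgf : g.comp f = QuotientGroup.mk' _ := by
      apply nn_ext
      intro x a
      rw [MonoidHom.comp_apply, nlift_of, nlift_of]
      rfl
    intro x hx y
    have h1 := DFunLike.congr_fun hgf x
    rw [MonoidHom.comp_apply, hx, map_one] at h1
    have h2 : x ∈ Subgroup.center (NN wN (RN (⊤ : SimpleGraph K) M (m + 1 + 1))) := by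
      rw [← QuotientGroup.eq_one_iff]
      exact h1.symm
    exact ((Subgroup.mem_center_iff.1 h2) y).symm

/-- the structures of cliques -/
theorem hyp_RN (hC : ClosedE C) (Λ : SimpleGraph X) (M : X → Subgroup A) [∀ x, (M x).Normal]
    (hM : ∀ x, C (A ⧸ M x)) (m : ℕ) : HypC C wN (RN Λ M (m + 1)) := by
  intro K _ S k hk hirr
  have hS : S = RN (⊤ : SimpleGraph K) (fun x => M (k x)) (m + 1) := by
    have hadj : ∀ x y : K, x ≠ y → Λ.Adj (k x) (k y) := by
      intro x y hxy
      obtain ⟨i, l, h1, h2, h3⟩ := hirr x trivial y trivial hxy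
      have h4 := (hk.iff i l).2 h1
      rcases i with a | ⟨n, a⟩
      · obtain ⟨z, -, hz⟩ := mem_RN_inl.1 h4
        obtain ⟨z', rfl⟩ : ∃ z', l = [z'] := by
          rw [List.map_eq_singleton_iff] at hz
          obtain ⟨z', h, -⟩ := hz
          exact ⟨z', h⟩
        rw [List.mem_singleton] at h2 h3
        exact absurd (h2.trans h3.symm) hxy
      · obtain ⟨-, -, h5, -⟩ := mem_RN_inr.1 h4
        exact (h5 _ (List.mem_map_of_mem h2) _ (List.mem_map_of_mem h3)).resolve_left
          fun e => hxy (hk.inj e)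
    ext ⟨i, l⟩
    rw [← hk.iff]
    rcases i with a | ⟨n, a⟩
    · rw [mem_RN_inl, mem_RN_inl]
      constructor
      · rintro ⟨z, h1, h2⟩
        rw [List.map_eq_singleton_iff] at h2
        obtain ⟨z', rfl, rfl⟩ := h2
        exact ⟨z', h1, rfl⟩
      · rintro ⟨z, h1, rfl⟩
        exact ⟨k z, h1, rfl⟩
    · rw [mem_RN_inr, mem_RN_inr, List.length_map]
      refine and_congr_right fun _ => and_congr_right fun _ => and_congr ?_ ?_
      · constructor
        · intro _ x _ y _
          rw [SimpleGraph.top_adj]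
          exact em _
        · intro _ x hx y hy
          rw [List.mem_map] at hx hy
          obtain ⟨x', -, rfl⟩ := hx
          obtain ⟨y', -, rfl⟩ := hy
          by_cases h : x' = y'
          · exact Or.inl (congrArg k h)
          · exact Or.inr (hadj _ _ h)
      · rw [List.getElem?_map, List.getElem?_map]
        exact (Option.map_injective hk.inj).ne_iff
  rw [hS]
  exact clique_C hC _ (fun x => hM (k x)) m

/-- **extensions by nilpotent graph products** -/
theorem nil_main (hC : ClosedE C) {G : Type} [Group G] (Λ : SimpleGraph X) (M : X → Subgroup A)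
    [∀ x, (M x).Normal] (hM : ∀ x, C (A ⧸ M x)) (m : ℕ) (N : Subgroup G) [N.Normal]
    (e : NN wN (RN Λ M (m + 1)) ≃* N)
    (hact : ∀ g : G, ∃ n ∈ N, ∃ τ : Equiv.Perm X, (∀ x y, Λ.Adj (τ x) (τ y) ↔ Λ.Adj x y) ∧
      (∀ x, M (τ x) = M x) ∧ ∀ x a, (n * g) * (e (NN.of wN (RN Λ M (m + 1)) x a) : G) * (n * g)⁻¹ =
        (e (NN.of wN (RN Λ M (m + 1)) (τ x) a) : G))
    (hQ : C (G ⧸ N)) : C G := by
  refine rel_main hC (brun_RN Λ M (m + 1)) (hyp_RN hC Λ M hM m) N e (fun g => ?_) hQ
  obtain ⟨n, hn, τ, h1, h2, h3⟩ := hact g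
  refine ⟨n, hn, τ, ⟨τ.injective, ?_⟩, h3⟩
  rintro (a | ⟨k, a⟩) l
  · rw [mem_RN_inl, mem_RN_inl]
    constructor
    · rintro ⟨z, h4, h5⟩
      rw [List.map_eq_singleton_iff] at h5
      obtain ⟨z', rfl, rfl⟩ := h5
      rw [h2] at h4
      exact ⟨z', h4, rfl⟩
    · rintro ⟨z, h4, rfl⟩
      refine ⟨τ z, ?_, rfl⟩
      rw [h2]
      exact h4
  · rw [mem_RN_inr, mem_RN_inr, List.length_map]
    refine and_congr_right fun _ => and_congr_right fun _ => and_congr ?_ ?_
    · constructor
      · intro h x hx y hy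
        have := h _ (List.mem_map_of_mem hx) _ (List.mem_map_of_mem hy)
        rw [h1, τ.injective.eq_iff] at this
        exact this
      · intro h x hx y hy
        rw [List.mem_map] at hx hy
        obtain ⟨x', hx', rfl⟩ := hx
        obtain ⟨y', hy', rfl⟩ := hy
        rw [h1, τ.injective.eq_iff]
        exact h _ hx' _ hy'
    · rw [List.getElem?_map, List.getElem?_map]
      exact (Option.map_injective τ.injective).ne_iff

end Pool.Agent.W2helper25.AE
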