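import Pool.Agent.W2helper25.AE.Nil

/-!
# Nilpotent graph products: final form, and the final form of the general theorem
-/

set_option autoImplicit false

namespace Pool.Agent.W2helper25.AE

open Pool.Agent.Y110.FJ
open Pool.Agent.Y462.SS (Closed)
open scoped commutatorElement

/-- **extensions by groups given by relational structures**, with finite subsets -/
theorem rel_fin {C : ∀ (G : Type) [Group G], Prop} (hC : ClosedE C) {A ι X G : Type} [Group A]
    [Group G] {w : ι → Monoid.CoprodI (fun _ : ℕ => A)} {R : Str ι X} (hB : Brun w R)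
    (hK : ∀ K : Set X, K.Finite → (∀ x ∈ K, ∀ y ∈ K, x ≠ y → ∃ i l, (i, l) ∈ R ∧ x ∈ l ∧ y ∈ l ∧
      ∀ z ∈ l, z ∈ K) → C (NN w (res R K)))
    (N : Subgroup G) [N.Normal] (e : NN w R ≃* N)
    (hact : ∀ g : G, ∃ n ∈ N, ∃ τ : Equiv.Perm X, (∀ i l, (i, l.map τ) ∈ R ↔ (i, l) ∈ R) ∧
      ∀ x a, (n * g) * (e (NN.of w R x a) : G) * (n * g)⁻¹ = (e (NN.of w R (τ x) a) : G))
    (hQ : C (G ⧸ N)) : C G := by
  refine rel_main hC hB ?_ N e (fun g => ?_) hQ
  · intro K _ S k hk hirr
    have hemb : Emb S (res R (Set.range k)) (fun a => ⟨k a, a, rfl⟩) := by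
      refine ⟨fun a b hab => hk.inj (congrArg Subtype.val hab), fun i l => ?_⟩
      show (i, (l.map _).map Subtype.val) ∈ R ↔ _
      rw [List.map_map]
      exact hk.iff i l
    refine hC.base.of_injective _ _ (up w hemb) (up_inj hemb (hB.of_emb (res_emb R _)))
      (hK _ (Set.finite_range k) ?_)
    rintro _ ⟨a, rfl⟩ _ ⟨b, rfl⟩ hab
    obtain ⟨i, l, h1, h2, h3⟩ := hirr a trivial b trivial (fun e => hab (congrArg k e))
    refine ⟨i, l.map k, (hk.iff i l).2 h1, List.mem_map_of_mem h2, List.mem_map_of_mem h3, ?_⟩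
    intro z hz
    rw [List.mem_map] at hz
    obtain ⟨c, -, rfl⟩ := hz
    exact ⟨c, rfl⟩
  · obtain ⟨n, hn, τ, h1, h2⟩ := hact g
    exact ⟨n, hn, τ, ⟨τ.injective, h1⟩, h2⟩

variable {A X : Type} [Group A]

/-- left-normed commutators -/
def leftComm (x : ℕ → X) (a : ℕ → A) : ℕ → Monoid.CoprodI (fun _ : X => A)
  | 0 => cof (x 0) (a 0)
  | n + 1 => ⁅leftComm x a n, cof (x (n + 1)) (a (n + 1))⁆

/-- the relators of the nilpotent graph product -/
def nilRel (Λ : SimpleGraph X) (M : X → Subgroup A) (k : ℕ) :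
    Set (Monoid.CoprodI (fun _ : X => A)) :=
  {r | (∃ x, ∃ a ∈ M x, r = cof x a) ∨ ∃ (x : ℕ → X) (a : ℕ → A),
    (∀ i ≤ k, ∀ j ≤ k, x i = x j ∨ Λ.Adj (x i) (x j)) ∧ x 0 ≠ x 1 ∧ r = leftComm x a k}

theorem lnc_leftComm (x : ℕ → X) (a : ℕ → A) (k : ℕ) :
    lnc ((List.range (k + 1)).map fun j => cof (x j) (a j)) = leftComm x a k := by
  induction k with
  | zero => rfl
  | succ k ih =>
    rw [List.range_succ, List.map_append, List.map_singleton, lnc_append (by simp), ih]
    rfl

theorem rels_RN (Λ : SimpleGraph X) (M : X → Subgroup A) (m : ℕ) :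
    rels wN (RN Λ M (m + 1)) = nilRel Λ M (m + 1) := by
  ext r
  constructor
  · rintro ⟨a | ⟨k, a⟩, l, h, rfl⟩
    · obtain ⟨x, hx, rfl⟩ := mem_RN_inl.1 h
      exact Or.inl ⟨x, a, hx, by rw [ev_inl]⟩
    · obtain ⟨rfl, h1, h2, h3⟩ := mem_RN_inr.1 h
      have h0 : 0 < l.length := by omega
      refine Or.inr ⟨fun j => l.getD j (l[0]'h0), a, ?_, ?_, ?_⟩
      · intro i hi j hj
        have hi' : i < l.length := by omega
        have hj' : j < l.length := by omega
        simp only [List.getD_eq_getElem?_getD]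
        rw [List.getElem?_eq_getElem hi', List.getElem?_eq_getElem hj']
        exact h2 _ (List.getElem_mem hi') _ (List.getElem_mem hj')
      · intro e
        apply h3
        have h1' : 1 < l.length := by omega
        simp only [List.getD_eq_getElem?_getD] at e
        rw [List.getElem?_eq_getElem h0, List.getElem?_eq_getElem h1'] at e ⊢
        exact congrArg some e
      · rw [ev_inr, ← lnc_leftComm]
        congr 1
        apply List.map_congr_left
        intro j hj
        rw [List.mem_range] at hj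
        have hj' : j < l.length := by omega
        simp only [List.getD_eq_getElem?_getD]
        rw [List.getElem?_eq_getElem hj']
        rfl
  · rintro (⟨x, a, ha, rfl⟩ | ⟨x, a, h1, h2, rfl⟩)
    · exact ⟨Sum.inl a, [x], mem_RN_inl.2 ⟨x, ha, rfl⟩, by rw [ev_inl]⟩
    · refine ⟨Sum.inr (m + 1, a), (List.range (m + 1 + 1)).map x, mem_RN_inr.2 ⟨rfl, ?_, ?_, ?_⟩, ?_⟩
      · rw [List.length_map, List.length_range]
      · intro u hu v hv
        rw [List.mem_map] at hu hv
        obtain ⟨i, hi, rfl⟩ := hu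
        obtain ⟨j, hj, rfl⟩ := hv
        rw [List.mem_range] at hi hj
        exact h1 i (by omega) j (by omega)
      · rw [List.getElem?_map, List.getElem?_map, List.getElem?_range (by omega),
          List.getElem?_range (by omega)]
        intro e
        exact h2 (Option.some.inj e)
      · rw [ev_inr, ← lnc_leftComm]
        congr 1
        apply List.map_congr_left
        intro j hj
        rw [List.mem_range] at hj
        rw [List.getElem?_map, List.getElem?_range (by omega)]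
        rfl

/-- **extensions by nilpotent graph products**, final form -/
theorem nil_fin {C : ∀ (G : Type) [Group G], Prop} (hC : ClosedE C) {G : Type} [Group G]
    (Λ : SimpleGraph X) (M : X → Subgroup A)
    [∀ x, (M x).Normal] (hM : ∀ x, C (A ⧸ M x)) (k : ℕ) (hk : 1 ≤ k) (N : Subgroup G) [N.Normal]
    (e : Monoid.CoprodI (fun _ : X => A) ⧸ Subgroup.normalClosure (nilRel Λ M k) ≃* N)
    (hact : ∀ g : G, ∃ n ∈ N, ∃ τ : Equiv.Perm X, (∀ x y, Λ.Adj (τ x) (τ y) ↔ Λ.Adj x y) ∧
      (∀ x, M (τ x) = M x) ∧ ∀ x a, (n * g) * (e (QuotientGroup.mk (cof x a)) : G) * (n * g)⁻¹ =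
        (e (QuotientGroup.mk (cof (τ x) a)) : G))
    (hQ : C (G ⧸ N)) : C G := by
  obtain ⟨m, rfl⟩ : ∃ m, k = m + 1 := ⟨k - 1, by omega⟩
  have h : ∀ (S : Set (Monoid.CoprodI (fun _ : X => A))) (_ : rels wN (RN Λ M (m + 1)) = S)
      (e : Monoid.CoprodI (fun _ : X => A) ⧸ Subgroup.normalClosure S ≃* N)
      (_ : ∀ g : G, ∃ n ∈ N, ∃ τ : Equiv.Perm X, (∀ x y, Λ.Adj (τ x) (τ y) ↔ Λ.Adj x y) ∧
      (∀ x, M (τ x) = M x) ∧ ∀ x a, (n * g) * (e (QuotientGroup.mk (cof x a)) : G) * (n * g)⁻¹ =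
        (e (QuotientGroup.mk (cof (τ x) a)) : G)), C G := by
    rintro S rfl e hact
    exact nil_main hC Λ M hM m N e hact hQ
  exact h _ (rels_RN Λ M m) e hact

end Pool.Agent.W2helper25.AE
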