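import Pool.Agent.N77.CX.Main
import Pool.Agent.W2helper25.AE.Fun

/-!
# Extensions by groups given by relational structures
-/

set_option autoImplicit false

namespace Pool.Agent.W2helper25.AE

open Pool.Agent.Y110.FJ
open Pool.Agent.Y462.SS (Closed)
open Pool.Agent.N77.GP (MT il tt mt_pow mt_one tt_conj)
open Pool.Agent.N77.CX (realized_of)

variable {C : ∀ (G : Type) [Group G], Prop}

theorem ex_suppN {A ι X : Type} [Group A] {w : ι → Monoid.CoprodI (fun _ : ℕ => A)}
    {R : Str ι X} (y : NN w R) : ∃ J : Set X, J.Finite ∧ y ∈ PS w R J := by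
  let H : Subgroup (NN w R) :=
    { carrier := {y | ∃ J : Set X, J.Finite ∧ y ∈ PS w R J}
      mul_mem' := by
        rintro a b ⟨J, h1, h2⟩ ⟨J', h3, h4⟩
        exact ⟨J ∪ J', h1.union h3, mul_mem (PS_mono Set.subset_union_left h2)
          (PS_mono Set.subset_union_right h4)⟩
      one_mem' := ⟨∅, Set.finite_empty, one_mem _⟩
      inv_mem' := by
        rintro a ⟨J, h1, h2⟩
        exact ⟨J, h1, inv_mem h2⟩ }
  have h : ∀ x a, NN.of w R x a ∈ H := fun x a =>
    (⟨{x}, Set.finite_singleton x, of_mem_PS (Set.mem_singleton x) a⟩ :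
      ∃ J : Set X, J.Finite ∧ NN.of w R x a ∈ PS w R J)
  exact nn_gen H h y

/-- **extensions by groups given by relational structures** -/
theorem rel_main (hC : ClosedE C) {A ι X G : Type} [Group A] [Group G]
    {w : ι → Monoid.CoprodI (fun _ : ℕ => A)} {R : Str ι X} (hB : Brun w R) (hH : HypC C w R)
    (N : Subgroup G) [N.Normal] (e : NN w R ≃* N)
    (hact : ∀ g : G, ∃ n ∈ N, ∃ τ : Equiv.Perm X, Emb R R τ ∧
      ∀ x a, (n * g) * (e (NN.of w R x a) : G) * (n * g)⁻¹ = (e (NN.of w R (τ x) a) : G))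
    (hQ : C (G ⧸ N)) : C G := by
  refine Pool.Agent.R779.FJ.t_crit Pool.Agent.Y529.FJ.t_ext
    (Pool.Agent.Y961.FJ.t_perm Pool.Agent.Y529.FJ.t_ext) C hC G N hQ fun g E hE hEN => ?_
  obtain ⟨n, hn, τ₀, hτM, hconj⟩ := hact g
  obtain ⟨m, hm⟩ : ∃ m : G, m = n * g := ⟨_, rfl⟩
  rw [← hm] at hconj
  have hgm : g = n⁻¹ * m := by rw [hm, inv_mul_cancel_left]
  -- the support
  obtain ⟨J, hJ, hJE⟩ : ∃ J : Set X, J.Finite ∧ ∀ x ∈ insert n E, ∃ y ∈ PS w R J, (e y : G) = x := by
    have hfinE : (insert n E).Finite := hE.insert n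
    have hsub : insert n E ⊆ (N : Set G) := Set.insert_subset hn hEN
    generalize insert n E = E' at hfinE hsub
    induction E', hfinE using Set.Finite.induction_on with
    | empty => exact ⟨∅, Set.finite_empty, fun x hx => absurd hx (Set.notMem_empty x)⟩
    | @insert a s _ _ ih =>
      obtain ⟨S, hS, h1⟩ := ih (fun x hx => hsub (Set.mem_insert_of_mem _ hx))
      obtain ⟨S', hS', h2⟩ := ex_suppN (e.symm ⟨a, hsub (Set.mem_insert _ _)⟩)
      refine ⟨S ∪ S', hS.union hS', fun x hx => ?_⟩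
      rcases hx with rfl | hx
      · exact ⟨_, PS_mono Set.subset_union_right h2, by rw [e.apply_symm_apply]⟩
      · obtain ⟨y, hy, hyx⟩ := h1 x hx
        exact ⟨y, PS_mono Set.subset_union_left hy, hyx⟩
  obtain ⟨J', hJ'⟩ : ∃ J' : Set X, J' = J ∪ τ₀ '' J := ⟨_, rfl⟩
  have hfinJ : Finite J' := by
    rw [hJ']
    exact hJ.union (hJ.image _)
  have hJJ' : ∀ b ∈ J, b ∈ J' := fun b hb => by rw [hJ']; exact Or.inl hb
  have hmJ : ∀ b ∈ J, τ₀ b ∈ J' := fun b hb => by
    rw [hJ']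
    exact Or.inr ⟨b, hb, rfl⟩
  obtain ⟨T, _, R', ι', τ, hι, hτ, hτι, hcl⟩ := eppa (res R J') {x | τ₀ x.1 ∈ J'}
    (fun x => ⟨τ₀ x.1.1, x.2⟩)
    (fun x y hxy => Subtype.ext (Subtype.ext (τ₀.injective (congrArg Subtype.val hxy))))
    (fun i l => by
      have h1 : (i, (l.map fun x => (⟨τ₀ x.1.1, x.2⟩ : J'))) ∈ res R J' ↔
          (i, (l.map fun x => x.1.1).map τ₀) ∈ R := by
        show (i, (l.map fun x => (⟨τ₀ x.1.1, x.2⟩ : J')).map Subtype.val) ∈ R ↔ _
        rw [List.map_map, List.map_map]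
        rfl
      have h2 : (i, l.map Subtype.val) ∈ res R J' ↔ (i, l.map fun x => x.1.1) ∈ R := by
        show (i, (l.map Subtype.val).map Subtype.val) ∈ R ↔ _
        rw [List.map_map]
        rfl
      rw [h1, h2, hτM.iff])
  have hB' : Brun w R' := by
    intro i l hl n hn
    obtain ⟨κ, hκ⟩ := hcl {x | x ∈ l} (fun x hx y hy _ => ⟨i, l, hl, hx, hy⟩)
    obtain ⟨b', hb'⟩ := ex_map (Subtype.val : {x | x ∈ l} → T) l (fun x hx => ⟨⟨x, hx⟩, rfl⟩)
    have h1 : (i, b') ∈ res R' {x | x ∈ l} := by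
      show (i, b'.map Subtype.val) ∈ R'
      rw [hb']
      exact hl
    have h2 := (hκ.iff i b').2 h1
    have h3 := congrArg List.length hb'
    rw [List.length_map] at h3
    refine hB i _ h2 n ?_
    simp only [List.length_map]
    rw [h3]
    exact hn
  have hH' : HypC C w R' := by
    intro K _ S k hk hirr
    have hK : IrrOn R' (Set.range k) := by
      rintro _ ⟨x, rfl⟩ _ ⟨y, rfl⟩ hne
      obtain ⟨i, l, h1, h2, h3⟩ := hirr x trivial y trivial (fun h => hne (by rw [h]))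
      exact ⟨i, l.map k, (hk.iff i l).2 h1, List.mem_map_of_mem h2, List.mem_map_of_mem h3⟩
    obtain ⟨κ, hκ⟩ := hcl _ hK
    have hk' : Emb S (res R' (Set.range k)) (fun x => ⟨k x, x, rfl⟩) := by
      refine ⟨fun x y h => hk.inj (congrArg Subtype.val h), fun i l => ?_⟩
      show (i, (l.map fun x => (⟨k x, x, rfl⟩ : Set.range k)).map Subtype.val) ∈ R' ↔ _
      rw [List.map_map]
      exact hk.iff i l
    exact hH K inferInstance S _ (((res_emb R J').comp hκ).comp hk') hirr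
  have hCT : C (NN w R') := fin_C hC _ T rfl R' hB' hH'
  -- the embeddings
  have hαinj := up_inj (res_emb R J') hB
  have hβinj := up_inj hι hB'
  obtain ⟨a, ha⟩ : ∃ a : NN w (res R J') →* G,
    a = N.subtype.comp (e.toMonoidHom.comp (up w (res_emb R J'))) := ⟨_, rfl⟩
  have hainj : Function.Injective a := by
    rw [ha]
    exact Subtype.val_injective.comp (e.injective.comp hαinj)
  have has : ∀ (b : J') (c : A), a (NN.of w _ b c) = (e (NN.of w R b.1 c) : G) := by
    intro b c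
    rw [ha, MonoidHom.comp_apply, MonoidHom.comp_apply, up_of]
    rfl
  obtain ⟨β, hβ⟩ : ∃ β : NN w (res R J') →* NN w R', β = up w hι := ⟨_, rfl⟩
  rw [← hβ] at hβinj
  have hβs : ∀ (b : J') (c : A), β (NN.of w _ b c) = NN.of w R' (ι' b) c := by
    intro b c
    rw [hβ, up_of]
  -- conjugation by `m`
  have key : ∀ y ∈ PS w R J, ∃ v v' : NN w (res R J'), a v = (e y : G) ∧
      a v' = m * (e y : G) * m⁻¹ ∧ β v' = naut w hτ (β v) := by
    intro x hx
    unfold PS at hx
    induction hx using Subgroup.closure_induction with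
    | mem x hx =>
      obtain ⟨b, hb, c, rfl⟩ := hx
      refine ⟨NN.of w _ ⟨b, hJJ' b hb⟩ c, NN.of w _ ⟨τ₀ b, hmJ b hb⟩ c, ?_, ?_, ?_⟩
      · rw [has]
      · rw [has]
        exact (hconj b c).symm
      · rw [hβs, hβs, naut_of]
        congr 1
        exact congrArg _ (hτι ⟨⟨b, hJJ' b hb⟩, hmJ b hb⟩).symm
    | one => exact ⟨1, 1, by simp, by simp, by simp⟩
    | mul x y _ _ hx hy =>
      obtain ⟨u, u', h1, h2, h3⟩ := hx
      obtain ⟨v, v', h4, h5, h6⟩ := hy
      refine ⟨u * v, u' * v', by rw [map_mul, h1, h4, map_mul]; rfl, ?_,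
        by rw [map_mul, map_mul, map_mul, h3, h6]⟩
      rw [map_mul, h2, h5, map_mul, Subgroup.coe_mul]
      group
    | inv x _ hx =>
      obtain ⟨u, u', h1, h2, h3⟩ := hx
      refine ⟨u⁻¹, u'⁻¹, by rw [map_inv, h1, map_inv]; rfl, ?_,
        by rw [map_inv, map_inv, map_inv, h3]⟩
      rw [map_inv, h2, map_inv, Subgroup.coe_inv]
      group
  have hES : E ⊆ (a.range : Set G) := by
    intro x hx
    obtain ⟨y, hy, rfl⟩ := hJE x (Set.mem_insert_of_mem n hx)
    obtain ⟨u, -, h1, -⟩ := key y hy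
    exact ⟨u, h1⟩
  have hnS : n⁻¹ ∈ a.range := by
    obtain ⟨y, hy, hyn⟩ := hJE n (Set.mem_insert n E)
    obtain ⟨u, -, h1, -⟩ := key y hy
    rw [← hyn]
    exact inv_mem ⟨u, h1⟩
  have hmE : ∀ x ∈ E, m * x * m⁻¹ ∈ a.range := by
    intro x hx
    obtain ⟨y, hy, rfl⟩ := hJE x (Set.mem_insert_of_mem n hx)
    obtain ⟨u, u', h1, h2, -⟩ := key y hy
    exact ⟨u', h2⟩
  have hsymm : ∀ (u : NN w (res R J')) (x : G) (hx : x ∈ a.range), a u = x →
      (MonoidHom.ofInjective hainj).symm ⟨x, hx⟩ = u := by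
    intro u x hx hu
    rw [MulEquiv.symm_apply_eq]
    apply Subtype.ext
    exact hu.symm
  refine realized_of a.range hgm hES hnS hmE (C_naut hC hCT hτ)
    ((il (naut w hτ)).comp (β.comp (MonoidHom.ofInjective hainj).symm.toMonoidHom)) ?_
    (tt (naut w hτ)) ?_
  · exact SemidirectProduct.inl_injective.comp
      (hβinj.comp (MonoidHom.ofInjective hainj).symm.injective)
  · intro x hx
    obtain ⟨y, hy, hyx⟩ := hJE x (Set.mem_insert_of_mem n hx)
    obtain ⟨u, u', h1, h2, h3⟩ := key y hy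
    rw [hyx] at h1 h2
    show il _ (β ((MonoidHom.ofInjective hainj).symm _)) =
      tt _ * il _ (β ((MonoidHom.ofInjective hainj).symm _)) * (tt _)⁻¹
    rw [hsymm u x _ h1, hsymm u' _ _ h2, tt_conj, h3]

end Pool.Agent.W2helper25.AE
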