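import Pool.Agent.W2helper25.AE.Hkn

/-!
# Faithful extension of partial automorphisms of relational structures
-/

set_option autoImplicit false

namespace Pool.Agent.W2helper25.AE

/-- relational structures on `X`: sets of pairs (symbol, tuple) -/
abbrev Str (ι X : Type) : Type := Set (ι × List X)

/-- embeddings -/
structure Emb {ι A X : Type} (S : Str ι A) (R : Str ι X) (f : A → X) : Prop where
  inj : Function.Injective f
  iff : ∀ i l, (i, l.map f) ∈ R ↔ (i, l) ∈ S

/-- restriction to a subset -/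
def res {ι X : Type} (R : Str ι X) (K : Set X) : Str ι K := {q | (q.1, q.2.map Subtype.val) ∈ R}

theorem res_emb {ι X : Type} (R : Str ι X) (K : Set X) : Emb (res R K) R Subtype.val :=
  ⟨Subtype.val_injective, fun _ _ => Iff.rfl⟩

theorem Emb.comp {ι A B X : Type} {S : Str ι A} {S' : Str ι B} {R : Str ι X} {f : A → B}
    {g : B → X} (hg : Emb S' R g) (hf : Emb S S' f) : Emb S R (g ∘ f) :=
  ⟨hg.inj.comp hf.inj, fun i l => by rw [← List.map_map, hg.iff, hf.iff]⟩

theorem Emb.symm {ι X : Type} {R : Str ι X} {τ : Equiv.Perm X} (h : Emb R R τ) :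
    Emb R R τ.symm :=
  ⟨τ.symm.injective, fun i l => by
    rw [← h.iff, List.map_map]
    simp⟩

/-- any two different elements of `K` occur together in a tuple -/
def IrrOn {ι X : Type} (R : Str ι X) (K : Set X) : Prop :=
  ∀ x ∈ K, ∀ y ∈ K, x ≠ y → ∃ i l, (i, l) ∈ R ∧ x ∈ l ∧ y ∈ l

section one

open Classical in
/-- the first step: an extension of a partial automorphism -/
theorem eppa1 {ι S : Type} [Finite S] (R : Str ι S) (hR : R.Finite) (hne : ∀ q ∈ R, q.2 ≠ [])
    (D : Set S) (f : D → S) (hf : Function.Injective f)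
    (hadj : ∀ i (l : List D), (i, l.map f) ∈ R ↔ (i, l.map Subtype.val) ∈ R) :
    ∃ (T : Type) (_ : Finite T) (R' : Str ι T) (g : S → T) (τ : Equiv.Perm T), R'.Finite ∧
      Emb R R' g ∧ Emb R' R' τ ∧ ∀ x : D, τ (g x) = g (f x) := by
  obtain ⟨n, hn⟩ : ∃ n, ∀ q ∈ R, q.2.length ≤ n := by
    obtain ⟨n, hn⟩ := (hR.image fun q => q.2.length).bddAbove
    exact ⟨n, fun q hq => hn ⟨q, hq, rfl⟩⟩
  let P : Set (ι × List S) := {q | q.1 ∈ Prod.fst '' R ∧ q.2.length ≤ n}
  have hPfin : P.Finite := by
    refine Set.Finite.subset ((hR.image Prod.fst).prod (List.finite_length_le S n)) ?_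
    rintro ⟨i, l⟩ ⟨h1, h2⟩
    exact ⟨h1, h2⟩
  have hRP : ∀ q ∈ R, q ∈ P := fun q hq => ⟨⟨q, hq, rfl⟩, hn q hq⟩
  have : Finite P := hPfin
  have := Fintype.ofFinite P
  obtain ⟨φ, hφ⟩ : ∃ φ : Equiv.Perm S, ∀ x : D, φ x = f x := by
    refine ⟨Equiv.extendSubtype (Equiv.ofInjective f hf), fun x => ?_⟩
    rw [Equiv.extendSubtype_apply_of_mem _ _ x.2]
    rfl
  have hmP : ∀ (ψ : Equiv.Perm S) (q : ι × List S), q ∈ P → (q.1, q.2.map ψ) ∈ P := by
    rintro ψ q ⟨h1, h2⟩
    exact ⟨h1, by rw [List.length_map]; exact h2⟩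
  let φP : Equiv.Perm P :=
    { toFun := fun q => ⟨(q.1.1, q.1.2.map φ), hmP φ q.1 q.2⟩
      invFun := fun q => ⟨(q.1.1, q.1.2.map φ.symm), hmP φ.symm q.1 q.2⟩
      left_inv := fun q => Subtype.ext (Prod.ext rfl (by
        show (q.1.2.map φ).map φ.symm = q.1.2
        rw [List.map_map]
        simp))
      right_inv := fun q => Subtype.ext (Prod.ext rfl (by
        show (q.1.2.map φ.symm).map φ = q.1.2
        rw [List.map_map]
        simp)) }
  have hφP : ∀ q : P, (φP q).1 = (q.1.1, q.1.2.map φ) := fun _ => rfl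
  let c : S → P → ZMod 2 := fun x q => if q.1 ∈ R ∧ q.1.2.head? = some x then 1 else 0
  have hcmem : ∀ x (q : P), x ∉ q.1.2 → c x q = 0 := by
    intro x q hx
    refine if_neg fun h => hx ?_
    exact List.mem_of_mem_head? h.2
  have hcsum : ∀ q : P, q.1.2 ≠ [] → ∑ x ∈ q.1.2.toFinset, c x q = if q.1 ∈ R then 1 else 0 := by
    intro q hq
    obtain ⟨y, hy⟩ : ∃ y, q.1.2.head? = some y := by
      rcases h : q.1.2 with _ | ⟨y, l⟩
      · exact absurd h hq
      · exact ⟨y, rfl⟩
    have hym : y ∈ q.1.2.toFinset := by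
      rw [List.mem_toFinset]
      exact List.mem_of_mem_head? hy
    rw [Finset.sum_eq_single y]
    · simp only [c, hy, and_true]
    · intro b _ hb
      refine if_neg fun h => hb ?_
      rw [hy] at h
      exact (Option.some.inj h.2).symm
    · intro h
      exact absurd hym h
  let dg : S → P → ZMod 2 := fun x q => if x ∈ D then c (φ x) (φP q) - c x q else 0
  let sg : P → ZMod 2 := fun q => ∑ z ∈ q.1.2.toFinset, dg z q
  have hex : ∀ q : P, ∃ y : Option S, (∀ z, y = some z → z ∈ q.1.2 ∧ z ∉ D) ∧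
      (y = none → ∀ z ∈ q.1.2, z ∈ D) := by
    intro q
    by_cases h : ∃ z ∈ q.1.2, z ∉ D
    · obtain ⟨z, hz, hz'⟩ := h
      refine ⟨some z, fun w hw => ?_, fun h => by simp at h⟩
      rw [← Option.some.inj hw]
      exact ⟨hz, hz'⟩
    · push Not at h
      exact ⟨none, fun w hw => by simp at hw, fun _ => h⟩
  choose y₀ hy₀ hy₀' using hex
  let F : S → P → ZMod 2 := fun x q => dg x q - if y₀ q = some x then sg q else 0
  have hFD : ∀ x : D, ∀ q, F x q = c (φ x) (φP q) - c x q := by
    intro x q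
    have h1 : y₀ q ≠ some (x : S) := fun h => (hy₀ q x h).2 x.2
    simp only [F, dg, if_pos x.2, if_neg h1, sub_zero]
  have hFsum : ∀ q : P, ∑ x ∈ q.1.2.toFinset, F x q = 0 := by
    intro q
    simp only [F]
    rw [Finset.sum_sub_distrib]
    rcases hy : y₀ q with _ | y
    · have h1 : ∀ x ∈ q.1.2.toFinset, (if (none : Option S) = some x then sg q else 0) = 0 :=
        fun x _ => if_neg (by simp)
      rw [Finset.sum_congr rfl h1, Finset.sum_const_zero, sub_zero]
      have hD := hy₀' q hy
      by_cases hq : q.1.2 = []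
      · rw [hq]
        simp
      have h2 : ∑ x ∈ q.1.2.toFinset, dg x q =
          ∑ x ∈ q.1.2.toFinset, c (φ x) (φP q) - ∑ x ∈ q.1.2.toFinset, c x q := by
        rw [← Finset.sum_sub_distrib]
        refine Finset.sum_congr rfl fun x hx => ?_
        exact if_pos (hD x (List.mem_toFinset.1 hx))
      have h3 : ∑ x ∈ q.1.2.toFinset, c (φ x) (φP q) =
          ∑ x ∈ (φP q).1.2.toFinset, c x (φP q) := by
        rw [hφP]
        show _ = ∑ x ∈ (q.1.2.map φ).toFinset, c x (φP q)
        rw [show (q.1.2.map φ).toFinset = q.1.2.toFinset.image φ by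
          ext z; simp, Finset.sum_image (fun a _ b _ h => φ.injective h)]
      have hq' : (φP q).1.2 ≠ [] := by
        rw [hφP]
        simpa using hq
      have h4 : (φP q).1 ∈ R ↔ q.1 ∈ R := by
        obtain ⟨l, hl⟩ : ∃ l : List D, l.map Subtype.val = q.1.2 := by
          refine ⟨q.1.2.attachWith (· ∈ D) hD, ?_⟩
          simp
        have h5 := hadj q.1.1 l
        rw [hl] at h5
        rw [hφP, ← hl, List.map_map]
        have h6 : l.map (φ ∘ Subtype.val) = l.map f := by
          apply List.map_congr_left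
          intro x _
          exact hφ x
        rw [h6]
        exact h5
      rw [h2, h3, hcsum _ hq', hcsum _ hq]
      simp only [h4, sub_self]
    · have h1 : ∑ x ∈ q.1.2.toFinset, (if some y = some x then sg q else 0) = sg q := by
        rw [Finset.sum_eq_single y]
        · exact if_pos rfl
        · intro b _ hb
          exact if_neg fun h => hb (Option.some.inj h).symm
        · intro h
          exact absurd (List.mem_toFinset.2 (hy₀ q y hy).1) h
      rw [h1]
      exact sub_self _
  let T : Type := S × (P → ZMod 2)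
  let R' : Str ι T := {Q | ∃ hP : (Q.1, Q.2.map Prod.fst) ∈ P,
    (∀ u ∈ Q.2, ∀ v ∈ Q.2, u.1 = v.1 → u = v) ∧
    ∑ u ∈ Q.2.toFinset, u.2 ⟨(Q.1, Q.2.map Prod.fst), hP⟩ = 1}
  let τ : Equiv.Perm T :=
    { toFun := fun u => (φ u.1, fun q => u.2 (φP.symm q) + F u.1 (φP.symm q))
      invFun := fun u => (φ.symm u.1, fun q => u.2 (φP q) - F (φ.symm u.1) q)
      left_inv := fun u => by
        refine Prod.ext ?_ ?_
        · simp
        · funext q
          simp only [Equiv.symm_apply_apply]
          ring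
      right_inv := fun u => by
        refine Prod.ext ?_ ?_
        · simp
        · funext q
          simp only [Equiv.apply_symm_apply]
          ring }
  have hτ1 : ∀ u, (τ u).1 = φ u.1 := fun _ => rfl
  have hτ2 : ∀ u q, (τ u).2 (φP q) = u.2 q + F u.1 q := by
    intro u q
    show u.2 (φP.symm (φP q)) + F u.1 (φP.symm (φP q)) = _
    rw [φP.symm_apply_apply]
  refine ⟨T, inferInstance, R', fun x => (x, c x), τ, ?_, ⟨?_, ?_⟩, ⟨τ.injective, ?_⟩, ?_⟩
  · refine Set.Finite.subset ((hR.image Prod.fst).prod (List.finite_length_le T n)) ?_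
    rintro ⟨i, L⟩ ⟨hP, -⟩
    refine ⟨hP.1, ?_⟩
    have := hP.2
    rw [List.length_map] at this
    exact this
  · intro x y h
    exact congrArg Prod.fst h
  · intro i l
    have hfst : (l.map fun x => ((x, c x) : T)).map Prod.fst = l := by
      rw [List.map_map]
      exact List.map_id' l
    have hsum : ∀ (h1 : (i, (l.map fun x => ((x, c x) : T)).map Prod.fst) ∈ P) (h2 : (i, l) ∈ P),
        ∑ u ∈ (l.map fun x => ((x, c x) : T)).toFinset,
          u.2 ⟨(i, (l.map fun x => ((x, c x) : T)).map Prod.fst), h1⟩ =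
        ∑ x ∈ l.toFinset, c x ⟨(i, l), h2⟩ := by
      intro h1 h2
      rw [show (l.map fun x => ((x, c x) : T)).toFinset = l.toFinset.image fun x => (x, c x) by
        ext z; simp, Finset.sum_image (fun a _ b _ h => congrArg Prod.fst h)]
      refine Finset.sum_congr rfl fun x _ => ?_
      show c x _ = c x _
      congr 1
      exact Subtype.ext (Prod.ext rfl hfst)
    constructor
    · rintro ⟨hP, -, h2⟩
      have hP' : (i, l) ∈ P := by
        simp only [hfst] at hP
        exact hP
      rw [hsum hP hP'] at h2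
      have hl : l ≠ [] := by
        rintro rfl
        simp at h2
      have h3 := hcsum ⟨(i, l), hP'⟩ hl
      rw [h2] at h3
      by_contra hc
      simp only at h3
      rw [if_neg hc] at h3
      exact absurd h3 (by decide)
    · intro h
      have hP' : (i, l) ∈ P := hRP _ h
      have hP : (i, (l.map fun x => ((x, c x) : T)).map Prod.fst) ∈ P := by
        rw [hfst]
        exact hP'
      refine ⟨hP, ?_, ?_⟩
      · intro u hu v hv huv
        obtain ⟨x, -, rfl⟩ := List.mem_map.1 hu
        obtain ⟨y, -, rfl⟩ := List.mem_map.1 hv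
        have hxy : x = y := huv
        rw [hxy]
      · rw [hsum hP hP']
        have h3 := hcsum ⟨(i, l), hP'⟩ (hne _ h)
        rw [h3]
        exact if_pos h
  · intro i L
    have hfst : (L.map τ).map Prod.fst = (L.map Prod.fst).map φ := by
      rw [List.map_map, List.map_map]
      rfl
    have hPiff : (i, (L.map τ).map Prod.fst) ∈ P ↔ (i, L.map Prod.fst) ∈ P := by
      rw [hfst]
      constructor
      · rintro ⟨h1, h2⟩
        exact ⟨h1, by simpa using h2⟩
      · rintro ⟨h1, h2⟩
        exact ⟨h1, by simpa using h2⟩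
    have hfun : (∀ u ∈ L.map τ, ∀ v ∈ L.map τ, u.1 = v.1 → u = v) ↔
        ∀ u ∈ L, ∀ v ∈ L, u.1 = v.1 → u = v := by
      constructor
      · intro h u hu v hv huv
        refine τ.injective (h _ (List.mem_map_of_mem hu) _ (List.mem_map_of_mem hv) ?_)
        rw [hτ1, hτ1, huv]
      · intro h u hu v hv huv
        obtain ⟨u', hu', rfl⟩ := List.mem_map.1 hu
        obtain ⟨v', hv', rfl⟩ := List.mem_map.1 hv
        rw [hτ1, hτ1] at huv
        rw [h u' hu' v' hv' (φ.injective huv)]
    have hsum : ∀ (h1 : (i, (L.map τ).map Prod.fst) ∈ P) (h2 : (i, L.map Prod.fst) ∈ P),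
        (∀ u ∈ L, ∀ v ∈ L, u.1 = v.1 → u = v) →
        ∑ u ∈ (L.map τ).toFinset, u.2 ⟨(i, (L.map τ).map Prod.fst), h1⟩ =
        ∑ u ∈ L.toFinset, u.2 ⟨(i, L.map Prod.fst), h2⟩ := by
      intro h1 h2 hL
      have e1 : (⟨(i, (L.map τ).map Prod.fst), h1⟩ : P) = φP ⟨(i, L.map Prod.fst), h2⟩ := by
        apply Subtype.ext
        rw [hφP]
        exact Prod.ext rfl hfst
      rw [e1, show (L.map τ).toFinset = L.toFinset.image τ by ext z; simp,
        Finset.sum_image (fun a _ b _ h => τ.injective h)]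
      simp only [hτ2]
      rw [Finset.sum_add_distrib]
      have e2 : ∑ u ∈ L.toFinset, F u.1 ⟨(i, L.map Prod.fst), h2⟩ = 0 := by
        have e3 := hFsum ⟨(i, L.map Prod.fst), h2⟩
        rw [show (L.map Prod.fst).toFinset = L.toFinset.image Prod.fst by ext z; simp,
          Finset.sum_image (fun a ha b hb h => hL a (List.mem_toFinset.1 ha) b
            (List.mem_toFinset.1 hb) h)] at e3
        exact e3
      rw [e2, add_zero]
    constructor
    · rintro ⟨hP, h1, h2⟩
      have hP' := hPiff.1 hP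
      have h1' := hfun.1 h1
      refine ⟨hP', h1', ?_⟩
      rw [← hsum hP hP' h1']
      exact h2
    · rintro ⟨hP', h1', h2⟩
      have hP := hPiff.2 hP'
      refine ⟨hP, hfun.2 h1', ?_⟩
      rw [hsum hP hP' h1']
      exact h2
  · intro x
    refine Prod.ext (hφ x) ?_
    funext q
    obtain ⟨q', rfl⟩ := φP.surjective q
    rw [hτ2, hFD]
    show c x q' + (c (φ x) (φP q') - c x q') = c (f x) (φP q')
    rw [hφ]
    ring

end one

end Pool.Agent.W2helper25.AE
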