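import Pool.Agent.W2helper25.AE.Rel

/-!
# Faithful extension of partial automorphisms of relational structures: second step
-/

set_option autoImplicit false

namespace Pool.Agent.W2helper25.AE

section hknR

variable {ι S T : Type} {ι₀ : S → T} {H : Subgroup (Equiv.Perm T)}

variable (ι₀ H) in
/-- the relations on the points with a valuation -/
def vrel (R₀ : Str ι T) : Str ι (V ι₀ H) :=
  {Q | (Q.1, Q.2.map fun v => v.1.1) ∈ R₀ ∧ ∀ u ∈ Q.2, ∀ v ∈ Q.2, u = v ∨ Gen ι₀ H u v}

/-- **faithful extensions** -/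
theorem hknR [Finite T] (hι₀ : Function.Injective ι₀) (R₀ : Str ι T) (hR₀ : R₀.Finite)
    (hH : ∀ α ∈ H, Emb R₀ R₀ α) (D : Set S) (f : D → S)
    (hf : Function.Injective f) (τ₀ : Equiv.Perm T) (hτ₀ : τ₀ ∈ H)
    (hτf : ∀ x : D, τ₀ (ι₀ x) = ι₀ (f x)) :
    ∃ (V : Type) (_ : Finite V) (R' : Str ι V) (pr : V → T) (g : S → V)
      (τ : Equiv.Perm V), R'.Finite ∧ (∀ x, pr (g x) = ι₀ x) ∧
      (∀ i (l : List S), (i, l.map g) ∈ R' ↔ (i, l.map ι₀) ∈ R₀) ∧ Emb R' R' τ ∧
      (∀ x : D, τ (g x) = g (f x)) ∧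
      ∀ K : Set V, IrrOn R' K → Set.InjOn pr K ∧ (∃ α ∈ H, ∀ x ∈ K, α (pr x) ∈ Set.range ι₀) ∧
        ∀ i (l : List V), (∀ x ∈ l, x ∈ K) → ((i, l) ∈ R' ↔ (i, l.map pr) ∈ R₀) := by
  classical
  have hcode : ∀ K : Finset T, ∃ u : S → ℕ, Bad ι₀ H K →
      (∀ s s', ι₀ s ∈ K → ι₀ s' ∈ K → u s = u s' → s = s') ∧
      ∀ s, ι₀ s ∈ K → u s + 1 < K.card := by
    intro K
    by_cases hK : Bad ι₀ H K
    · obtain ⟨u, hu⟩ := ex_code ι₀ hι₀ K hK.ex
      exact ⟨u, fun _ => hu⟩
    · exact ⟨fun _ => 0, fun h => absurd h hK⟩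
  choose u hu using hcode
  have hperm : ∀ K : Finset T, ∃ r : ℕ → ℕ, Bad ι₀ H K →
      (∀ v, v + 1 < K.card → r v + 1 < K.card) ∧
      (∀ v w, v + 1 < K.card → w + 1 < K.card → r v = r w → v = w) ∧
      ∀ s : D, ι₀ s ∈ K → r (u K s) = u (K.map τ₀.toEmbedding) (f s) := by
    intro K
    by_cases hK : Bad ι₀ H K
    · have hKm := hK.map hτ₀
      obtain ⟨ha1, ha2⟩ := hu K hK
      obtain ⟨hb1, hb2⟩ := hu _ hKm
      have hmem : ∀ s : D, ι₀ s ∈ K → ι₀ (f s) ∈ K.map τ₀.toEmbedding := by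
        intro s hs
        rw [← hτf]
        exact Finset.mem_map_of_mem _ hs
      obtain ⟨π, hπ⟩ := ex_perm (α := Fin (K.card - 1)) (S₀ := {s : D // ι₀ s ∈ K})
        (fun s => ⟨u K s.1, by have := ha2 s.1 s.2; omega⟩)
        (fun s => ⟨u (K.map τ₀.toEmbedding) (f s.1), by
          have := hb2 (f s.1) (hmem s.1 s.2)
          rw [Finset.card_map] at this
          omega⟩)
        (fun s s' h => by
          have h1 := congrArg Fin.val h
          exact Subtype.ext (Subtype.ext (ha1 _ _ s.2 s'.2 h1)))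
        (fun s s' h => by
          have h1 := congrArg Fin.val h
          exact Subtype.ext (hf (hb1 _ _ (hmem _ s.2) (hmem _ s'.2) h1)))
      refine ⟨fun v => if h : v < K.card - 1 then (π ⟨v, h⟩).val else v, fun _ => ⟨?_, ?_, ?_⟩⟩
      · intro v hv
        have hv' : v < K.card - 1 := by omega
        beta_reduce
        rw [dif_pos hv']
        have := (π ⟨v, hv'⟩).isLt
        omega
      · intro v w hv hw h
        have hv' : v < K.card - 1 := by omega
        have hw' : w < K.card - 1 := by omega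
        beta_reduce at h
        rw [dif_pos hv', dif_pos hw'] at h
        exact congrArg Fin.val (π.injective (Fin.ext h))
      · intro s hs
        have hv' : u K s < K.card - 1 := by
          have := ha2 s.1 hs
          omega
        beta_reduce
        rw [dif_pos hv']
        exact congrArg Fin.val (hπ ⟨s, hs⟩)
    · exact ⟨fun v => v, fun h => absurd h hK⟩
  choose r hr using hperm
  have hr1 : ∀ K v, Bad ι₀ H K → v + 1 < K.card → r K v + 1 < K.card :=
    fun K v hK => (hr K hK).1 v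
  have hr2 : ∀ K v w, Bad ι₀ H K → v + 1 < K.card → w + 1 < K.card → r K v = r K w → v = w :=
    fun K v w hK => (hr K hK).2.1 v w
  have hu2 : ∀ K, Bad ι₀ H K → ∀ s, ι₀ s ∈ K → u K s + 1 < K.card := fun K hK => (hu K hK).2
  let tf : V ι₀ H → V ι₀ H := tauF r τ₀ hτ₀ hr1
  have htf : Function.Bijective tf := Finite.injective_iff_bijective.1 (tauF_inj hr2)
  have hιgen : ∀ s s' : S, s ≠ s' → Gen ι₀ H (iotaF u hu2 s) (iotaF u hu2 s') := by
    intro s s' hne
    refine ⟨fun e => hne (hι₀ e), fun K hK hs hs' e => ?_⟩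
    rw [iotaF_snd hK hs, iotaF_snd hK hs'] at e
    exact hne ((hu K hK).1 s s' hs hs' e)
  refine ⟨V ι₀ H, inferInstance, vrel ι₀ H R₀, fun v => v.1.1, iotaF u hu2,
    Equiv.ofBijective tf htf, ?_, fun _ => rfl, ?_, ⟨(Equiv.ofBijective tf htf).injective, ?_⟩,
    ?_, ?_⟩
  · obtain ⟨n, hn⟩ : ∃ n, ∀ q ∈ R₀, q.2.length ≤ n := by
      obtain ⟨n, hn⟩ := (hR₀.image fun q => q.2.length).bddAbove
      exact ⟨n, fun q hq => hn ⟨q, hq, rfl⟩⟩
    refine Set.Finite.subset ((hR₀.image Prod.fst).prod (List.finite_length_le (V ι₀ H) n)) ?_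
    rintro ⟨i, L⟩ ⟨h1, -⟩
    refine ⟨⟨_, h1, rfl⟩, ?_⟩
    have := hn _ h1
    rw [List.length_map] at this
    exact this
  · intro i l
    have e : (l.map (iotaF u hu2)).map (fun v : V ι₀ H => v.1.1) = l.map ι₀ := by
      rw [List.map_map]
      rfl
    constructor
    · rintro ⟨h1, -⟩
      simp only [e] at h1
      exact h1
    · intro h
      refine ⟨?_, ?_⟩
      · simp only [e]
        exact h
      · intro a ha b hb
        obtain ⟨x, -, rfl⟩ := List.mem_map.1 ha
        obtain ⟨y, -, rfl⟩ := List.mem_map.1 hb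
        by_cases hxy : x = y
        · left
          rw [hxy]
        · exact Or.inr (hιgen x y hxy)
  · intro i L
    have e : (L.map (Equiv.ofBijective tf htf)).map (fun v : V ι₀ H => v.1.1) =
        (L.map fun v => v.1.1).map τ₀ := by
      rw [List.map_map, List.map_map]
      rfl
    have e2 : (i, (L.map (Equiv.ofBijective tf htf)).map (fun v : V ι₀ H => v.1.1)) ∈ R₀ ↔
        (i, L.map fun v => v.1.1) ∈ R₀ := by
      rw [e]
      exact (hH τ₀ hτ₀).iff i _
    constructor
    · rintro ⟨h1, h2⟩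
      refine ⟨e2.1 h1, fun a ha b hb => ?_⟩
      rcases h2 (tf a) (List.mem_map_of_mem (f := Equiv.ofBijective tf htf) ha) (tf b)
        (List.mem_map_of_mem (f := Equiv.ofBijective tf htf) hb) with h3 | h3
      · exact Or.inl (htf.1 h3)
      · exact Or.inr ((tauF_gen hr2 a b).1 h3)
    · rintro ⟨h1, h2⟩
      refine ⟨e2.2 h1, fun a ha b hb => ?_⟩
      obtain ⟨x, hx, rfl⟩ := List.mem_map.1 ha
      obtain ⟨y, hy, rfl⟩ := List.mem_map.1 hb
      rcases h2 x hx y hy with h3 | h3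
      · left
        rw [h3]
      · exact Or.inr ((tauF_gen (hτ₀ := hτ₀) (hr := hr1) hr2 x y).2 h3)
  · intro x
    show tf (iotaF u hu2 x) = iotaF u hu2 (f x)
    refine V.ext' (hτf x) fun K hK hx => ?_
    have hx0 : τ₀ (ι₀ x) ∈ K := hx
    have hB : Bad ι₀ H (K.map τ₀.symm.toEmbedding) := hK.map (inv_mem hτ₀)
    have hm := mem_symm hx0
    have e1 := tauF_snd (r := r) (hτ₀ := hτ₀) (hr := hr1) (iotaF u hu2 x) hB hm
    rw [map_map_symm] at e1
    rw [show (tf (iotaF u hu2 x)).1.2 K = (tauF r τ₀ hτ₀ hr1 (iotaF u hu2 x)).1.2 K from rfl, e1,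
      iotaF_snd hB hm, (hr _ hB).2.2 x hm, map_map_symm, iotaF_snd hK (by rw [← hτf]; exact hx0)]
  · intro K hK
    have hgen : ∀ x ∈ K, ∀ y ∈ K, x ≠ y → Gen ι₀ H x y := by
      intro x hx y hy hne
      obtain ⟨i, l, ⟨-, h1⟩, h2, h3⟩ := hK x hx y hy hne
      exact (h1 x h2 y h3).resolve_left hne
    have hinj : Set.InjOn (fun v : V ι₀ H => v.1.1) K := by
      intro x hx y hy h
      by_contra hne
      exact (hgen x hx y hy hne).1 h
    refine ⟨hinj, ?_, ?_⟩
    · have := Fintype.ofFinite (V ι₀ H)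
      let K' : Finset (V ι₀ H) := K.toFinset
      have hK' : ∀ x, x ∈ K' ↔ x ∈ K := fun x => Set.mem_toFinset
      let K₀ : Finset T := K'.image fun v => v.1.1
      have hcard : K₀.card = K'.card := by
        apply Finset.card_image_of_injOn
        intro x hx y hy h
        exact hinj ((hK' x).1 hx) ((hK' y).1 hy) h
      by_contra hc
      have hbad : Bad ι₀ H K₀ := by
        rintro ⟨α, hα, h⟩
        exact hc ⟨α, hα, fun x hx => h _ (Finset.mem_image_of_mem _ ((hK' x).2 hx))⟩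
      have hmem : ∀ x ∈ K', x.1.1 ∈ K₀ := fun x hx => Finset.mem_image_of_mem _ hx
      have hle : K'.card ≤ (Finset.range (K₀.card - 1)).card := by
        apply Finset.card_le_card_of_injOn (fun x => x.1.2 K₀)
        · intro x hx
          have := (x.2 K₀).1 ⟨hbad, hmem x hx⟩
          simp only [Finset.coe_range, Set.mem_Iio]
          omega
        · intro x hx y hy h
          by_contra hne
          exact (hgen x ((hK' x).1 hx) y ((hK' y).1 hy) hne).2 K₀ hbad (hmem x hx) (hmem y hy) h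
      rw [Finset.card_range] at hle
      have h0 : K₀.card = 0 := by omega
      obtain ⟨x, hx, -⟩ := hbad.ex
      rw [Finset.card_eq_zero] at h0
      rw [h0] at hx
      exact absurd hx (by simp)
    · intro i l hl
      constructor
      · rintro ⟨h1, -⟩
        exact h1
      · intro h
        refine ⟨h, fun a ha b hb => ?_⟩
        by_cases hab : a = b
        · exact Or.inl hab
        · exact Or.inr (hgen a (hl a ha) b (hl b hb) hab)

/-- **faithful extensions of partial automorphisms**, finitely many nonempty tuples -/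
theorem eppa2 {ι S : Type} [Finite S] (R : Str ι S) (hR : R.Finite) (hne : ∀ q ∈ R, q.2 ≠ [])
    (D : Set S) (f : D → S) (hf : Function.Injective f)
    (hadj : ∀ i (l : List D), (i, l.map f) ∈ R ↔ (i, l.map Subtype.val) ∈ R) :
    ∃ (T : Type) (_ : Finite T) (R' : Str ι T) (g : S → T) (τ : Equiv.Perm T), R'.Finite ∧
      Emb R R' g ∧ Emb R' R' τ ∧ (∀ x : D, τ (g x) = g (f x)) ∧
      ∀ K : Set T, IrrOn R' K → ∃ κ : K → S, Emb (res R' K) R κ := by
  obtain ⟨T, _, R₀, ι₀, τ₀, hR₀, hι₀, hτ₀, hτf⟩ := eppa1 R hR hne D f hf hadj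
  let H : Subgroup (Equiv.Perm T) :=
    { carrier := {α | Emb R₀ R₀ α}
      mul_mem' := fun {a b} ha hb => ha.comp hb
      one_mem' := ⟨Function.injective_id, fun i l => by
        rw [show l.map (1 : Equiv.Perm T) = l from List.map_id' l]⟩
      inv_mem' := fun {a} ha => ha.symm }
  obtain ⟨V, _, R', pr, g, τ, h1, h2, h3, h4, h5, h6⟩ :=
    hknR hι₀.inj R₀ hR₀ (H := H) (fun α hα => hα) D f hf τ₀ hτ₀ hτf
  refine ⟨V, inferInstance, R', g, τ, h1, ⟨?_, ?_⟩, h4, h5, ?_⟩
  · intro x y h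
    have := congrArg pr h
    rw [h2, h2] at this
    exact hι₀.inj this
  · intro i l
    rw [h3, hι₀.iff]
  · intro K hK
    obtain ⟨hinj, ⟨α, hα, hαK⟩, hKR⟩ := h6 K hK
    choose κ hκ using fun x : K => hαK x.1 x.2
    refine ⟨κ, ?_, ?_⟩
    · intro x y h
      have e1 := hκ x
      have e2 := hκ y
      rw [h] at e1
      have e3 : α (pr x) = α (pr y) := e1.symm.trans e2
      exact Subtype.ext (hinj x.2 y.2 (α.injective e3))
    · intro i l
      have e1 : (l.map κ).map ι₀ = ((l.map Subtype.val).map pr).map α := by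
        rw [List.map_map, List.map_map, List.map_map]
        apply List.map_congr_left
        intro x _
        exact hκ x
      have e2 : (i, l) ∈ res R' K ↔ (i, l.map Subtype.val) ∈ R' := Iff.rfl
      rw [← hι₀.iff, e1, (show Emb R₀ R₀ α from hα).iff, e2, hKR]
      intro x hx
      obtain ⟨y, -, rfl⟩ := List.mem_map.1 hx
      exact y.2

end hknR

end Pool.Agent.W2helper25.AE
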