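import Pool.Agent.W2helper25.AE.Rel2

/-!
# Faithful extension of partial automorphisms: arbitrary relations on finite sets
-/

set_option autoImplicit false

namespace Pool.Agent.W2helper25.AE

variable {ι A X : Type}

/-- the tuples which are enumerated by indices into `b`, such that all indices occur -/
def pt (R : Str ι X) (b : List X) : Set (ι × List ℕ) :=
  {p | (∃ l, (p.1, l) ∈ R ∧ l.map some = p.2.map fun k => b[k]?) ∧ ∀ k < b.length, k ∈ p.2}

/-- the recoded structure -/
def rc (R : Str ι X) : Str (Set (ι × List ℕ)) X :=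
  {Q | Q.2.Nodup ∧ Q.2 ≠ [] ∧ Q.1 = pt R Q.2 ∧ Q.1.Nonempty}

/-- the structure which is encoded -/
def unr (U : Str (Set (ι × List ℕ)) X) : Str ι X :=
  {Q | ∃ q b m, (q, b) ∈ U ∧ (Q.1, m) ∈ q ∧ Q.2.map some = m.map fun k => b[k]?}

/-- all indices occur -/
def Good (U : Str (Set (ι × List ℕ)) X) : Prop :=
  ∀ q b, (q, b) ∈ U → b ≠ [] ∧ ∀ i m, (i, m) ∈ q → ∀ k < b.length, k ∈ m

theorem ex_some (L : List (Option A)) (h : ∀ o ∈ L, o ≠ none) : ∃ l : List A, l.map some = L := by
  induction L with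
  | nil => exact ⟨[], rfl⟩
  | cons o L ih =>
    obtain ⟨l, hl⟩ := ih fun o' ho' => h o' (List.mem_cons_of_mem _ ho')
    obtain ⟨a, ha⟩ := Option.ne_none_iff_exists'.1 (h o List.mem_cons_self)
    exact ⟨a :: l, by rw [List.map_cons, hl, ha]⟩

theorem ex_map (f : A → X) (L : List X) (h : ∀ x ∈ L, x ∈ Set.range f) :
    ∃ l : List A, l.map f = L := by
  induction L with
  | nil => exact ⟨[], rfl⟩
  | cons x L ih =>
    obtain ⟨l, hl⟩ := ih fun x' hx' => h x' (List.mem_cons_of_mem _ hx')
    obtain ⟨a, ha⟩ := h x List.mem_cons_self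
    exact ⟨a :: l, by rw [List.map_cons, hl, ha]⟩

theorem some_inj {l l' : List A} (h : l.map some = l'.map some) : l = l' :=
  List.map_injective_iff.2 (Option.some_injective A) h

theorem map_get (f : A → X) (b : List A) (m : List ℕ) :
    (m.map fun k => (b.map f)[k]?) = (m.map fun k => b[k]?).map (Option.map f) := by
  rw [List.map_map]
  apply List.map_congr_left
  intro k _
  rw [List.getElem?_map]
  rfl

theorem map_some_map (f : A → X) (l : List A) :
    (l.map f).map some = (l.map some).map (Option.map f) := by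
  rw [List.map_map, List.map_map]
  rfl

theorem enum_map {f : A → X} (hf : Function.Injective f) (l b : List A) (m : List ℕ) :
    ((l.map f).map some = m.map fun k => (b.map f)[k]?) ↔ l.map some = m.map fun k => b[k]? := by
  rw [map_get, map_some_map]
  exact (List.map_injective_iff.2 (Option.map_injective hf)).eq_iff

theorem pt_map (R : Str ι X) {f : A → X} (hf : Function.Injective f) (b : List A) :
    pt R (b.map f) = pt {Q | (Q.1, Q.2.map f) ∈ R} b := by
  ext ⟨i, m⟩
  constructor
  · rintro ⟨⟨l', h1, h2⟩, h3⟩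
    simp only [List.length_map] at h3
    obtain ⟨l, hl⟩ := ex_some (m.map fun k => b[k]?) (by
      intro o ho
      obtain ⟨k, hk, rfl⟩ := List.mem_map.1 ho
      intro hn
      have h4 : ((b.map f)[k]? : Option X) ∈ m.map fun k => (b.map f)[k]? :=
        List.mem_map_of_mem (f := fun k => (b.map f)[k]?) hk
      rw [← h2] at h4
      obtain ⟨x, -, hx⟩ := List.mem_map.1 h4
      rw [List.getElem?_map, hn] at hx
      simp at hx)
    have h5 := (enum_map hf l b m).2 hl
    rw [← h2] at h5
    have h6 := some_inj h5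
    refine ⟨⟨l, ?_, hl⟩, h3⟩
    show (i, l.map f) ∈ R
    rw [h6]
    exact h1
  · rintro ⟨⟨l, h1, h2⟩, h3⟩
    refine ⟨⟨l.map f, h1, (enum_map hf l b m).2 h2⟩, ?_⟩
    simp only [List.length_map]
    exact h3

theorem rc_good (R : Str ι X) : Good (rc R) := by
  rintro q b ⟨-, h2, h3, -⟩
  refine ⟨h2, fun i m hm => ?_⟩
  have h3' : q = pt R b := h3
  rw [h3'] at hm
  exact hm.2

open Classical in
theorem unr_rc (R : Str ι X) (i : ι) (l : List X) : (i, l) ∈ unr (rc R) ↔ (i, l) ∈ R ∧ l ≠ [] := by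
  constructor
  · rintro ⟨q, b, m, ⟨h1, h2, h3, -⟩, h4, h5⟩
    have h3' : q = pt R b := h3
    rw [h3'] at h4
    obtain ⟨⟨l', h6, h7⟩, h8⟩ := h4
    have h5' : l.map some = m.map fun k => b[k]? := h5
    rw [← h5'] at h7
    rw [some_inj h7] at h6
    refine ⟨h6, ?_⟩
    rintro rfl
    have h9 : m = [] := by
      have := congrArg List.length h5'
      simpa using this.symm
    rw [h9] at h8
    have h10 := h8 0 (List.length_pos_iff.2 h2)
    simp at h10
  · rintro ⟨h1, h2⟩
    have hget : ∀ x ∈ l, (l.dedup)[(l.dedup).idxOf x]? = some x := by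
      intro x hx
      rw [List.getElem?_eq_some_iff]
      have h3 : (l.dedup).idxOf x < (l.dedup).length :=
        List.idxOf_lt_length_iff.2 (List.mem_dedup.2 hx)
      exact ⟨h3, List.getElem_idxOf h3⟩
    have henum : l.map some = (l.map fun x => (l.dedup).idxOf x).map fun k => (l.dedup)[k]? := by
      rw [List.map_map]
      apply List.map_congr_left
      intro x hx
      exact (hget x hx).symm
    have hmem : (i, l.map fun x => (l.dedup).idxOf x) ∈ pt R l.dedup := by
      refine ⟨⟨l, h1, henum⟩, fun k hk => ?_⟩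
      refine List.mem_map.2 ⟨(l.dedup)[k], ?_, ?_⟩
      · exact List.mem_dedup.1 (List.getElem_mem hk)
      · exact (List.nodup_dedup l).idxOf_getElem k hk
    refine ⟨pt R l.dedup, l.dedup, l.map fun x => (l.dedup).idxOf x,
      ⟨List.nodup_dedup l, ?_, rfl, ⟨_, hmem⟩⟩, hmem, henum⟩
    intro h
    rcases l with _ | ⟨x, l⟩
    · exact h2 rfl
    · have h3 : x ∈ (x :: l).dedup := List.mem_dedup.2 List.mem_cons_self
      have h4 : (x :: l).dedup = [] := h
      rw [h4] at h3
      simp at h3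

/-- entries of `b` are entries of the enumerated tuple -/
theorem mem_of_enum {l b : List X} {m : List ℕ} (h : l.map some = m.map fun k => b[k]?)
    (hm : ∀ k < b.length, k ∈ m) {x : X} (hx : x ∈ b) : x ∈ l := by
  obtain ⟨k, hk, rfl⟩ := List.mem_iff_getElem.1 hx
  have h1 : (b[k]? : Option X) ∈ m.map fun k => b[k]? :=
    List.mem_map_of_mem (f := fun k => b[k]?) (hm k hk)
  rw [← h] at h1
  obtain ⟨y, hy, hy'⟩ := List.mem_map.1 h1
  rw [List.getElem?_eq_getElem hk] at hy'
  rw [← Option.some.inj hy']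
  exact hy

theorem mem_of_enum' {l b : List X} {m : List ℕ} (h : l.map some = m.map fun k => b[k]?)
    {x : X} (hx : x ∈ l) : x ∈ b := by
  have h1 : some x ∈ m.map fun k => b[k]? := by
    rw [← h]
    exact List.mem_map_of_mem hx
  obtain ⟨k, -, hk⟩ := List.mem_map.1 h1
  exact List.mem_of_getElem? hk

theorem unr_map {U : Str (Set (ι × List ℕ)) A} {U' : Str (Set (ι × List ℕ)) X} (hU' : Good U')
    {f : A → X} (hf : Emb U U' f) (i : ι) (l : List A) :
    (i, l.map f) ∈ unr U' ↔ (i, l) ∈ unr U := by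
  constructor
  · rintro ⟨q, B, m, h1, h2, h3⟩
    have h3' : (l.map f).map some = m.map fun k => B[k]? := h3
    obtain ⟨b, rfl⟩ := ex_map f B (by
      intro x hx
      have h4 := mem_of_enum h3' ((hU' q B h1).2 i m h2) hx
      obtain ⟨a, -, ha⟩ := List.mem_map.1 h4
      exact ⟨a, ha⟩)
    exact ⟨q, b, m, (hf.iff q b).1 h1, h2, (enum_map hf.inj l b m).1 h3'⟩
  · rintro ⟨q, b, m, h1, h2, h3⟩
    exact ⟨q, b.map f, m, (hf.iff q b).2 h1, h2, (enum_map hf.inj l b m).2 h3⟩

theorem Good.of_emb {U : Str (Set (ι × List ℕ)) A} {U' : Str (Set (ι × List ℕ)) X}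
    (hU' : Good U') {f : A → X} (hf : Emb U U' f) : Good U := by
  intro q b hb
  have h := hU' q (b.map f) ((hf.iff q b).2 hb)
  simp only [List.length_map, ne_eq, List.map_eq_nil_iff] at h
  exact h

theorem rc_finite [Finite X] (R : Str ι X) : (rc R).Finite := by
  classical
  have := Fintype.ofFinite X
  refine Set.Finite.subset ((List.finite_length_le X (Fintype.card X)).image
    fun b => (pt R b, b)) ?_
  rintro ⟨q, b⟩ ⟨h1, -, h3, -⟩
  refine ⟨b, h1.length_le_card, ?_⟩
  have h3' : q = pt R b := h3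
  rw [h3']

/-- **faithful extensions of partial automorphisms of finite structures** -/
theorem eppa {S : Type} [Finite S] (R : Str ι S) (D : Set S) (f : D → S)
    (hf : Function.Injective f)
    (hadj : ∀ i (l : List D), (i, l.map f) ∈ R ↔ (i, l.map Subtype.val) ∈ R) :
    ∃ (T : Type) (_ : Finite T) (R' : Str ι T) (g : S → T) (τ : Equiv.Perm T),
      Emb R R' g ∧ Emb R' R' τ ∧ (∀ x : D, τ (g x) = g (f x)) ∧
      ∀ K : Set T, IrrOn R' K → ∃ κ : K → S, Emb (res R' K) R κ := by
  obtain ⟨T, _, U, g, τ, -, hg, hτ, hτf, hfaith⟩ := eppa2 (rc R) (rc_finite R)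
    (fun Q hQ => hQ.2.1) D f hf (by
      intro q l
      have e1 : pt R (l.map f) = pt R (l.map Subtype.val) := by
        rw [pt_map R hf, pt_map R Subtype.val_injective]
        congr 1
        ext ⟨i, l'⟩
        exact hadj i l'
      have e2 : (l.map f).Nodup ↔ (l.map Subtype.val).Nodup := by
        rw [List.nodup_map_iff hf, List.nodup_map_iff Subtype.val_injective]
      show ((l.map f).Nodup ∧ l.map f ≠ [] ∧ q = pt R (l.map f) ∧ q.Nonempty) ↔
        ((l.map Subtype.val).Nodup ∧ l.map Subtype.val ≠ [] ∧ q = pt R (l.map Subtype.val) ∧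
          q.Nonempty)
      have e3 : l.map f ≠ [] ↔ l.map Subtype.val ≠ [] := by
        rw [ne_eq, ne_eq, List.map_eq_nil_iff, List.map_eq_nil_iff]
      rw [e1, e2, e3])
  have hgood : Good U := by
    intro q b hb
    have hK : IrrOn U {x | x ∈ b} := fun x hx y hy _ => ⟨q, b, hb, hx, hy⟩
    obtain ⟨κ, hκ⟩ := hfaith _ hK
    obtain ⟨b', hb'⟩ := ex_map (Subtype.val : {x | x ∈ b} → T) b (fun x hx => ⟨⟨x, hx⟩, rfl⟩)
    have h1 : (q, b') ∈ res U {x | x ∈ b} := by
      show (q, b'.map Subtype.val) ∈ U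
      rw [hb']
      exact hb
    have h2 := (rc_good R).of_emb hκ q b' h1
    have h3 : b.length = b'.length := by
      have h4 := congrArg List.length hb'
      rw [List.length_map] at h4
      exact h4.symm
    refine ⟨fun h => h2.1 ?_, fun i m hm => ?_⟩
    · have h4 : b.length = 0 := List.length_eq_zero_iff.2 h
      exact List.length_eq_zero_iff.1 (h3 ▸ h4)
    · rw [h3]
      exact h2.2 i m hm
  let R' : Str ι T := {Q | Q ∈ unr U ∨ (Q.2 = [] ∧ (Q.1, ([] : List S)) ∈ R)}
  have hR' : ∀ {B : Type} (h : B → T) (k : B → S) (W : Str (Set (ι × List ℕ)) B)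
      (_ : Emb W U h) (_ : Emb W (rc R) k) (i : ι) (l : List B),
      (i, l.map h) ∈ R' ↔ (i, l.map k) ∈ R := by
    intro B h k W hh hk i l
    have h1 := unr_map hgood hh i l
    have h2 := unr_map (rc_good R) hk i l
    rw [unr_rc] at h2
    constructor
    · rintro (h3 | ⟨h3, h4⟩)
      · exact (h2.2 (h1.1 h3)).1
      · have h5 : l = [] := List.map_eq_nil_iff.1 h3
        rw [h5]
        exact h4
    · intro h3
      by_cases h4 : l = []
      · right
        rw [h4] at h3
        rw [h4]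
        exact ⟨rfl, h3⟩
      · left
        exact h1.2 (h2.1 ⟨h3, by simpa using h4⟩)
  refine ⟨T, inferInstance, R', g, τ, ⟨hg.inj, ?_⟩, ⟨τ.injective, ?_⟩, hτf, ?_⟩
  · intro i l
    have h1 := hR' g id (rc R) hg ⟨Function.injective_id, fun i l => by rw [List.map_id]⟩ i l
    rw [List.map_id] at h1
    exact h1
  · intro i l
    have h1 := unr_map hgood hτ i l
    show ((i, l.map τ) ∈ unr U ∨ (l.map τ = [] ∧ (i, ([] : List S)) ∈ R)) ↔
      ((i, l) ∈ unr U ∨ (l = [] ∧ (i, ([] : List S)) ∈ R))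
    rw [h1, List.map_eq_nil_iff]
  · intro K hK
    have hK' : IrrOn U K := by
      intro x hx y hy hne
      obtain ⟨i, l, h1 | ⟨h1, -⟩, h2, h3⟩ := hK x hx y hy hne
      · obtain ⟨q, b, m, h4, h5, h6⟩ := h1
        exact ⟨q, b, h4, mem_of_enum' h6 h2, mem_of_enum' h6 h3⟩
      · have h1' : l = [] := h1
        rw [h1'] at h2
        simp at h2
    obtain ⟨κ, hκ⟩ := hfaith K hK'
    refine ⟨κ, hκ.inj, fun i l => ?_⟩
    exact (hR' Subtype.val κ (res U K) (res_emb U K) hκ i l).symm

end Pool.Agent.W2helper25.AE
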